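import Mathlib

/-!
# Constant blocks of completely multiplicative functions with values `1`, `-1`: definitions
-/

namespace Pool.Agent.helper21.BBE

open MeasureTheory

/-- `f` is completely multiplicative on the positive integers, with values `1` and `-1`. -/
def IsCM (f : ℕ → ℤ) : Prop :=
  (∀ n, 1 ≤ n → f n = 1 ∨ f n = -1) ∧ ∀ m n, 1 ≤ m → 1 ≤ n → f (m * n) = f m * f n

/-- `f` takes one value on some `k` consecutive positive integers. -/
def HasBlock (f : ℕ → ℤ) (k : ℕ) : Prop := ∃ n, 1 ≤ n ∧ ∀ i < k, f (n + i) = f n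

/-- Every colouring of `{0, ..., l - 1}` with two colours has a monochromatic arithmetic
progression with `k` terms. -/
def VDW (k l : ℕ) : Prop :=
  ∀ c : ℕ → Bool, ∃ i d, 1 ≤ d ∧ i + (k - 1) * d < l ∧ ∀ j < k, c (i + j * d) = c i

/-- For `p = (θ, H)`: the twisted product `n ↦ e(θ n) ∏_{h ∈ H} f(n + h)`. -/
noncomputable def tw (f : ℕ → ℤ) (p : ℚ × Finset ℕ) (n : ℕ) : ℂ :=
  Complex.exp (2 * Real.pi * Complex.I * ((p.1 : ℂ) * n)) * ∏ h ∈ p.2, (f (n + h) : ℂ)

/-- For all pairs `(θ, H)` in `s` the number `Q θ` is not an integer. -/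
def Outside (Q : ℕ) (s : Finset (ℚ × Finset ℕ)) : Prop :=
  ∀ p ∈ s, ∀ z : ℤ, (Q : ℚ) * p.1 ≠ z

/-- On the positive integers, `1` is a complex linear combination of the twisted products
with `(θ, H)` in `s`. -/
def Comb (f : ℕ → ℤ) (s : Finset (ℚ × Finset ℕ)) : Prop :=
  ∃ c : ℚ × Finset ℕ → ℂ, ∀ n, 1 ≤ n → ∑ p ∈ s, c p * tw f p n = 1

/-- The sequence `f(n) f(n+1)`. -/
def ratio (f : ℕ → ℤ) (n : ℕ) : ℤ := f n * f (n + 1)

/-- The shift of sequences. -/
def shift (x : ℕ → ℤ) : ℕ → ℤ := fun i => x (i + 1)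

/-- The orbit closure of `f`: the closure of the set of the sequences `(f(n), f(n+1), ...)`,
`n ≥ 1`, in the product topology. -/
def orbitClosure (f : ℕ → ℤ) : Set (ℕ → ℤ) :=
  closure {x | ∃ n, 1 ≤ n ∧ x = fun i => f (n + i)}

/-- The rotation by one of `ℤ/m` is a factor of the system `(T, μ)`. -/
def CyclicFactor {Ω : Type*} [MeasurableSpace Ω] (T : Ω → Ω) (μ : Measure Ω) (m : ℕ) : Prop :=
  ∃ φ : Ω → ZMod m, Measurable φ ∧ ∀ᵐ x ∂μ, φ (T x) = φ x + 1

end Pool.Agent.helper21.BBE
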