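import Mathlib
import Pool.Agent.helper21.BBE.Defs

namespace Pool.Agent.helper21.BBE

/-- Van der Waerden's theorem for two colours, finite form. -/
theorem exists_VDW (k : ℕ) : ∃ l, VDW k l := by
  classical
  rcases Nat.eq_zero_or_pos k with hk | hk
  · subst hk
    exact ⟨1, fun c => ⟨0, 1, le_rfl, by norm_num, fun j hj => absurd hj (Nat.not_lt_zero j)⟩⟩
  obtain ⟨ι, _inst, hι⟩ := Combinatorics.Line.exists_mono_in_high_dimension (Fin k) Bool
  refine ⟨(k - 1) * Fintype.card ι + 1, fun c => ?_⟩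
  obtain ⟨L, col, hL⟩ := hι fun v => c (∑ i, (v i : ℕ))
  set s : Finset ι := Finset.univ.filter fun i => L.idxFun i = none with hs
  set b : ℕ := ∑ i ∈ sᶜ, (((L.idxFun i).getD ⟨0, hk⟩ : Fin k) : ℕ) with hb
  have hsum : ∀ x : Fin k, ∑ i, ((L x i : Fin k) : ℕ) = b + (x : ℕ) * s.card := by
    intro x
    rw [← Finset.sum_add_sum_compl s, hb, add_comm]
    congr 1
    · apply Finset.sum_congr rfl
      intro i hi
      rw [hs, Finset.compl_filter, Finset.mem_filter] at hi
      obtain ⟨y, hy⟩ := Option.ne_none_iff_exists.mp hi.right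
      rw [L.apply_some hy.symm, ← hy]
      rfl
    · rw [Finset.sum_congr rfl (g := fun _ => (x : ℕ)), Finset.sum_const, smul_eq_mul, mul_comm]
      intro i hi
      rw [hs, Finset.mem_filter] at hi
      rw [L.apply_none _ _ hi.right]
  have hcard : 0 < s.card := Finset.card_pos.mpr
    ⟨L.proper.choose, by rw [hs, Finset.mem_filter]; exact ⟨Finset.mem_univ _, L.proper.choose_spec⟩⟩
  refine ⟨b, s.card, hcard, ?_, ?_⟩
  · have h1 := hsum ⟨k - 1, by omega⟩
    have h2 : ∑ i, ((L ⟨k - 1, by omega⟩ i : Fin k) : ℕ) ≤ (k - 1) * Fintype.card ι := by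
      calc ∑ i, ((L ⟨k - 1, by omega⟩ i : Fin k) : ℕ) ≤ ∑ _i : ι, (k - 1) :=
            Finset.sum_le_sum fun i _ => by
              have := (L ⟨k - 1, by omega⟩ i : Fin k).2
              omega
        _ = (k - 1) * Fintype.card ι := by
              rw [Finset.sum_const, smul_eq_mul, Finset.card_univ, mul_comm]
    have h3 : b + (k - 1) * s.card ≤ (k - 1) * Fintype.card ι := by
      have : b + (k - 1) * s.card = ∑ i, ((L ⟨k - 1, by omega⟩ i : Fin k) : ℕ) := h1.symm
      omega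
    omega
  · intro j hj
    have h1 : c (∑ i, ((L ⟨j, hj⟩ i : Fin k) : ℕ)) = col := hL ⟨j, hj⟩
    have h0 : c (∑ i, ((L ⟨0, hk⟩ i : Fin k) : ℕ)) = col := hL ⟨0, hk⟩
    rw [hsum] at h1 h0
    simp only [zero_mul, add_zero] at h0 h1
    rw [h1, h0]

/-- Equal values of `f` on a progression `c * d * (m + j)` give a block. -/
theorem block_of_dilate {f : ℕ → ℤ} (hf : IsCM f) {k a m : ℕ} (ha : 1 ≤ a) (hm : 1 ≤ m)
    (h : ∀ j < k, f (a * (m + j)) = f (a * m)) : HasBlock f k := by
  refine ⟨m, hm, fun i hi => ?_⟩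
  have h1 := h i hi
  rw [hf.2 a (m + i) ha (by omega), hf.2 a m ha hm] at h1
  have h2 : f a ≠ 0 := by
    rcases hf.1 a ha with h | h <;> rw [h] <;> norm_num
  exact mul_left_cancel₀ h2 h1

theorem HasBlock.mono {f : ℕ → ℤ} {k l : ℕ} (h : HasBlock f l) (hkl : k ≤ l) : HasBlock f k := by
  obtain ⟨n, hn, h⟩ := h
  exact ⟨n, hn, fun i hi => h i (by omega)⟩

/-- (1) implies (2). -/
theorem words_of_blocks {f : ℕ → ℤ} (h : ∀ k, HasBlock f k) (q l : ℕ) (hq : 1 ≤ q) :
    ∃ w : ℕ → ℤ, ∀ a, ∃ n, 1 ≤ n ∧ n ≡ a [MOD q] ∧ ∀ i < l, f (n + i) = w i := by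
  obtain ⟨n, hn, hb⟩ := h (q + l)
  refine ⟨fun _ => f n, fun a => ?_⟩
  obtain ⟨t, ht, htq⟩ : ∃ t < q, n + t ≡ a [MOD q] := by
    refine ⟨(a + (q - n % q)) % q, Nat.mod_lt _ hq, ?_⟩
    have h1 : n % q < q := Nat.mod_lt _ hq
    have h2 : n + (a + (q - n % q)) % q ≡ n + (a + (q - n % q)) [MOD q] :=
      Nat.ModEq.add_left _ (Nat.mod_modEq _ _)
    refine h2.trans ?_
    have h3 : n + (a + (q - n % q)) = a + (n / q + 1) * q := by
      have := Nat.div_add_mod n q
      have h4 : n = n / q * q + n % q := by rw [mul_comm]; exact this.symm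
      have h5 : (n / q + 1) * q = n / q * q + q := by ring
      omega
    rw [h3]
    simp [Nat.ModEq]
  refine ⟨n + t, by omega, htq, fun i hi => ?_⟩
  rw [add_assoc]
  exact hb (t + i) (by omega)

/-- (3) implies (1): words are given up to sign. -/
theorem blocks_of_words {f : ℕ → ℤ} (hf : IsCM f) {Q : ℕ} (hQ : 1 ≤ Q)
    (h : ∀ q, 1 ≤ q → ∀ l, ∃ (w : ℕ → ℤ) (r : ℕ), ∀ a, a ≡ r [MOD Q] →
      ∃ n, 1 ≤ n ∧ n ≡ a [MOD Q * q] ∧ ∀ i < l, f (n + i) = f n * w i) (k : ℕ) :
    HasBlock f k := by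
  classical
  obtain ⟨l, hl⟩ := exists_VDW (k + 2)
  suffices HasBlock f (k + 2) from this.mono (by omega)
  obtain ⟨w, r, hw⟩ := h (l - 1).factorial (Nat.factorial_pos _) (Q + Q * l)
  set s : ℕ := (Q - r % Q) % Q with hs
  have hsQ : s < Q := Nat.mod_lt _ hQ
  have hrs : r + s ≡ 0 [MOD Q] := by
    have h1 : r % Q < Q := Nat.mod_lt _ hQ
    have h2 : r + s ≡ r + (Q - r % Q) [MOD Q] := Nat.ModEq.add_left _ (Nat.mod_modEq _ _)
    refine h2.trans ?_
    have h4 : r = r / Q * Q + r % Q := by rw [mul_comm]; exact (Nat.div_add_mod r Q).symm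
    have h3 : r + (Q - r % Q) = 0 + (r / Q + 1) * Q := by
      have h5 : (r / Q + 1) * Q = r / Q * Q + Q := by ring
      omega
    rw [h3]
    simp [Nat.ModEq]
  obtain ⟨i, d, hd, hid, hc⟩ := hl fun j => decide (w (s + Q * j) = 1)
  have hdl : d ≤ l - 1 := by
    have : (k + 2 - 1) * d = k * d + d := by
      rw [show k + 2 - 1 = k + 1 by omega]; ring
    have h0 : 0 ≤ k * d := Nat.zero_le _
    omega
  have hdf : d ∣ (l - 1).factorial := Nat.dvd_factorial hd hdl
  -- choose the class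
  set M : ℕ := Q * (l - 1).factorial with hM
  have hMpos : 0 < M := Nat.mul_pos hQ (Nat.factorial_pos _)
  set a : ℕ := (M - 1) * (s + Q * i) with ha
  have haM : a + (s + Q * i) = M * (s + Q * i) := by
    rw [ha, ← Nat.succ_mul]
    congr 1
    omega
  have har : a ≡ r [MOD Q] := by
    have h1 : a + s ≡ r + s [MOD Q] := by
      refine Nat.ModEq.trans ?_ hrs.symm
      have h2 : a + s + Q * i = M * (s + Q * i) := by rw [← haM]; ring
      have h3 : a + s + Q * i ≡ 0 [MOD Q] := by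
        rw [h2, Nat.modEq_zero_iff_dvd, hM]
        exact ⟨(l - 1).factorial * (s + Q * i), by ring⟩
      have h4 : a + s ≡ a + s + Q * i [MOD Q] := by
        simp [Nat.ModEq]
      exact h4.trans h3
    exact Nat.ModEq.add_right_cancel' s h1
  obtain ⟨n, hn, hna, hnw⟩ := hw a har
  have hdvd : M ∣ n + (s + Q * i) := by
    rw [← Nat.modEq_zero_iff_dvd]
    have h1 : n + (s + Q * i) ≡ a + (s + Q * i) [MOD M] := Nat.ModEq.add_right _ hna
    refine h1.trans ?_
    rw [haM, Nat.modEq_zero_iff_dvd]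
    exact ⟨_, rfl⟩
  have hQd : Q * d ∣ n + (s + Q * i) := dvd_trans (Nat.mul_dvd_mul_left Q hdf) hdvd
  obtain ⟨m, hm⟩ := hQd
  have hmpos : 1 ≤ m := by
    rcases Nat.eq_zero_or_pos m with h0 | h0
    · rw [h0, mul_zero] at hm; omega
    · exact h0
  have key : ∀ j < k + 2, f (Q * d * (m + j)) = f n * w (s + Q * (i + j * d)) := by
    intro j hj
    have h1 : Q * d * (m + j) = n + (s + Q * (i + j * d)) := by
      rw [mul_add, ← hm]; ring
    rw [h1]
    apply hnw
    have h2 : i + j * d < l := by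
      have : j * d ≤ (k + 2 - 1) * d := Nat.mul_le_mul_right _ (by omega)
      omega
    have h3 : Q * (i + j * d) < Q * l := Nat.mul_lt_mul_of_pos_left h2 hQ
    omega
  have hval : ∀ j < k + 2, w (s + Q * (i + j * d)) = 1 ∨ w (s + Q * (i + j * d)) = -1 := by
    intro j hj
    have h1 := hf.1 (Q * d * (m + j)) (Nat.mul_pos (Nat.mul_pos hQ hd) (by omega))
    rw [key j hj] at h1
    rcases hf.1 n hn with h2 | h2 <;> rw [h2] at h1 <;> rcases h1 with h1 | h1
    · left; linarith
    · right; linarith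
    · right; linarith
    · left; linarith
  refine block_of_dilate hf (a := Q * d) (m := m) (Nat.mul_pos hQ hd) hmpos fun j hj => ?_
  rw [key j hj]
  have h0 := key 0 (by omega)
  simp only [add_zero, zero_mul] at h0
  rw [h0]
  have h1 := hc j hj
  have h2 := hval j hj
  have h3 := hval 0 (by omega)
  simp only [zero_mul, add_zero] at h3
  rw [decide_eq_decide] at h1
  congr 1
  rcases h2 with h2 | h2 <;> rcases h3 with h3 | h3
  · rw [h2, h3]
  · rw [h2, h3] at h1; norm_num at h1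
  · rw [h2, h3] at h1; norm_num at h1
  · rw [h2, h3]

/-- The word given by a set. -/
def sg (W : Finset ℕ) (i : ℕ) : ℤ := if i ∈ W then 1 else -1

/-- Words of length `l` exclude, up to sign, a class modulo `M!`. -/
theorem excluded {f : ℕ → ℤ} (hf : IsCM f) {k l : ℕ} (hl : VDW k l) (hno : ¬ HasBlock f k)
    (W : Finset ℕ) : ∃ a : ℕ, ∀ n, 1 ≤ n → n ≡ a [MOD ((l - 1) / (k - 1)).factorial] →
      ¬ (∀ i < l, f (n + i) = sg W i) ∧ ¬ (∀ i < l, f (n + i) = -sg W i) := by
  classical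
  have hk2 : 2 ≤ k := by
    by_contra hk
    apply hno
    refine ⟨1, le_rfl, fun i hi => ?_⟩
    have : i = 0 := by omega
    rw [this]
  set q : ℕ := ((l - 1) / (k - 1)).factorial with hq
  have hq0 : 1 ≤ q := Nat.factorial_pos _
  obtain ⟨i, d, hd, hid, hc⟩ := hl fun j => decide (j ∈ W)
  have hdM : d ≤ (l - 1) / (k - 1) := by
    rw [Nat.le_div_iff_mul_le (by omega), mul_comm]
    omega
  have hdq : d ∣ q := Nat.dvd_factorial hd hdM
  refine ⟨(q - 1) * i, fun n hn hna => ?_⟩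
  have hdn : d ∣ n + i := by
    have h1 : n + i ≡ (q - 1) * i + i [MOD q] := Nat.ModEq.add_right _ hna
    have h2 : (q - 1) * i + i = q * i := by
      have : (q - 1) * i + i = (q - 1 + 1) * i := by ring
      rw [this]; congr 1; omega
    rw [h2] at h1
    have h3 : q ∣ n + i := by
      rw [← Nat.modEq_zero_iff_dvd]
      exact h1.trans (by rw [Nat.modEq_zero_iff_dvd]; exact dvd_mul_right _ _)
    exact hdq.trans h3
  obtain ⟨m, hm⟩ := hdn
  have hmpos : 1 ≤ m := by
    rcases Nat.eq_zero_or_pos m with h0 | h0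
    · rw [h0, mul_zero] at hm; omega
    · exact h0
  have hsgc : ∀ j < k, sg W (i + j * d) = sg W i := by
    intro j hj
    have := hc j hj
    rw [decide_eq_decide] at this
    rw [sg, sg]
    simp only [this]
  have hlt : ∀ j < k, i + j * d < l := by
    intro j hj
    have : j * d ≤ (k - 1) * d := Nat.mul_le_mul_right _ (by omega)
    omega
  have hidx : ∀ j, d * (m + j) = n + (i + j * d) := by
    intro j
    rw [mul_add, ← hm]; ring
  constructor
  · intro h
    refine hno (block_of_dilate hf hd hmpos fun j hj => ?_)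
    rw [hidx j, h _ (hlt j hj), hsgc j hj, ← hm, h i (by simpa using hlt 0 (by omega))]
  · intro h
    refine hno (block_of_dilate hf hd hmpos fun j hj => ?_)
    rw [hidx j, h _ (hlt j hj), hsgc j hj, ← hm, h i (by simpa using hlt 0 (by omega))]

end Pool.Agent.helper21.BBE
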