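import Mathlib
import Pool.Agent.helper21.BBE.VdW

namespace Pool.Agent.helper21.BBE

open Finset

/-- The pairs with frequency outside `(1/Q)ℤ` and an even number of shifts. -/
def Pairs (Q : ℕ) : Set (ℚ × Finset ℕ) := {p | (∀ z : ℤ, (Q : ℚ) * p.1 ≠ z) ∧ Even p.2.card}

theorem comb_of_mem_span {f : ℕ → ℤ} {Q : ℕ} {G : ℕ → ℂ}
    (hG : G ∈ Submodule.span ℂ (tw f '' Pairs Q)) (h1 : ∀ n, 1 ≤ n → G n = 1) :
    ∃ s, Outside Q s ∧ (∀ p ∈ s, Even p.2.card) ∧ Comb f s := by
  rw [Finsupp.mem_span_image_iff_linearCombination] at hG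
  obtain ⟨l, hl, hG⟩ := hG
  refine ⟨l.support, fun p hp => ?_, fun p hp => ?_, l, fun n hn => ?_⟩
  · exact ((Finsupp.mem_supported ℂ l).mp hl hp).1
  · exact ((Finsupp.mem_supported ℂ l).mp hl hp).2
  · rw [← h1 n hn, ← hG, Finsupp.linearCombination_apply, Finsupp.sum, Finset.sum_apply]
    rfl

theorem symmetrize {f : ℕ → ℤ} {l M : ℕ} (A0 : Finset ℕ → ℕ → ℕ)
    (h0 : ∀ W r n, 1 ≤ n → n ≡ A0 W r [MOD M] →
      ¬ (∀ i < l, f (n + i) = sg W i) ∧ ¬ (∀ i < l, f (n + i) = -sg W i)) :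
    ∃ A : Finset ℕ → ℕ → ℕ, (∀ W r, ∃ W', A W r = A0 W' r) ∧
      (∀ W ⊆ range l, ∀ r, A (range l \ W) r = A W r) ∧
      ∀ W ⊆ range l, ∀ r n, 1 ≤ n → n ≡ A W r [MOD M] → ∃ i < l, f (n + i) ≠ sg W i := by
  classical
  refine ⟨fun W r => A0 (if 0 ∈ W then W else range l \ W) r, fun W r => ⟨_, rfl⟩, ?_, ?_⟩
  · intro W hW r
    rcases Nat.eq_zero_or_pos l with hl | hl
    · subst hl
      rw [range_zero] at hW ⊢
      have : W = ∅ := subset_empty.mp hW
      subst this
      simp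
    · by_cases h : 0 ∈ W
      · simp only [h, if_true, mem_sdiff, mem_range, not_true_eq_false, and_false, if_false]
        rw [Finset.sdiff_sdiff_eq_self hW]
      · simp only [h, if_false, mem_sdiff, mem_range, hl, not_false_eq_true, and_self, if_true]
  · intro W hW r n hn hna
    by_contra hcon
    push Not at hcon
    by_cases h : 0 ∈ W
    · simp only [h, if_true] at hna
      exact (h0 W r n hn hna).1 hcon
    · simp only [h, if_false] at hna
      refine (h0 _ r n hn hna).2 fun i hi => ?_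
      rw [hcon i hi, sg, sg]
      by_cases hiW : i ∈ W
      · simp [hiW]
      · simp [hiW, hi]

theorem prod_eq (l : ℕ) (σ g : ℕ → ℂ) :
    ∏ i ∈ range l, ((1 + σ i * g i) / 2) =
      (1 / 2) ^ l * ∑ H ∈ (range l).powerset, (∏ h ∈ H, σ h) * ∏ h ∈ H, g h := by
  have h1 : ∏ i ∈ range l, ((1 + σ i * g i) / 2) =
      ∏ i ∈ range l, ((1 / 2) * (1 + σ i * g i)) :=
    prod_congr rfl fun i _ => by ring
  rw [h1, prod_mul_distrib, prod_const, card_range, prod_one_add]
  congr 1
  exact sum_congr rfl fun H _ => prod_mul_distrib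

theorem sum_pow_eq {D : ℕ} (u : ℂ) (hu : u ^ D = 1) :
    ∑ b ∈ range D, u ^ b = if u = 1 then (D : ℂ) else 0 := by
  split_ifs with h
  · simp [h]
  · rw [geom_sum_eq h, hu]; simp

theorem root_pow_eq_iff {D : ℕ} {ζ : ℂ} (h : IsPrimitiveRoot ζ D) (h0 : ζ ≠ 0) {a b : ℕ} :
    ζ ^ a = ζ ^ b ↔ a ≡ b [MOD D] := by
  have key : ∀ {a b : ℕ}, a ≤ b → (ζ ^ a = ζ ^ b ↔ a ≡ b [MOD D]) := by
    intro a b hab
    rw [Nat.modEq_iff_dvd' hab, ← h.pow_eq_one_iff_dvd]
    have h1 : ζ ^ b = ζ ^ a * ζ ^ (b - a) := by rw [← pow_add]; congr 1; omega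
    have h2 : ζ ^ a ≠ 0 := pow_ne_zero _ h0
    rw [h1]
    constructor
    · intro h3
      exact (mul_left_cancel₀ h2 (by rw [mul_one]; exact h3)).symm
    · intro h3
      rw [h3, mul_one]
  rcases le_total a b with hab | hab
  · exact key hab
  · constructor
    · intro h1
      exact ((key hab).mp h1.symm).symm
    · intro h1
      exact ((key hab).mpr h1.symm).symm

/-- The sum over the multiples of `q` below `Q * q`. -/
theorem sum_mult {Q q : ℕ} (hq : 1 ≤ q) (u : ℂ) :
    ∑ b ∈ (range (Q * q)).filter (fun b => q ∣ b), u ^ b = ∑ b ∈ range Q, (u ^ q) ^ b := by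
  symm
  apply sum_nbij' (fun b => q * b) (fun b => b / q)
  · intro b hb
    rw [mem_filter, mem_range]
    rw [mem_range] at hb
    exact ⟨by rw [mul_comm]; exact Nat.mul_lt_mul_of_pos_right hb hq, dvd_mul_right _ _⟩
  · intro b hb
    rw [mem_filter, mem_range] at hb
    rw [mem_range]
    exact Nat.div_lt_of_lt_mul (by rw [mul_comm]; exact hb.1)
  · intro b _
    exact Nat.mul_div_cancel_left b hq
  · intro b hb
    rw [mem_filter] at hb
    exact Nat.mul_div_cancel' hb.2
  · intro b _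
    rw [← pow_mul]

theorem identity {f : ℕ → ℤ} (hf : IsCM f) {Q q l : ℕ} (hQ : 1 ≤ Q) (hq : 1 ≤ q)
    (A : Finset ℕ → ℕ → ℕ) (hA : ∀ W r, A W r ≡ r [MOD Q])
    (hsym : ∀ W ⊆ range l, ∀ r, A (range l \ W) r = A W r)
    (hno : ∀ W ⊆ range l, ∀ r n, 1 ≤ n → n ≡ A W r [MOD Q * q] →
      ∃ i < l, f (n + i) ≠ sg W i) :
    ∃ C : ℕ → Finset ℕ → ℂ, (∀ b H, ‖C b H‖ ≤ 1) ∧ (∀ b H, ¬ Even H.card → C b H = 0) ∧
      ∀ n, 1 ≤ n → ∑ b ∈ (range (Q * q)).filter (fun b => ¬ q ∣ b), ∑ H ∈ (range l).powerset,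
        C b H * tw f ((b : ℚ) / ((Q * q : ℕ) : ℚ), H) n = 1 := by
  classical
  set D : ℕ := Q * q with hD
  have hDpos : 0 < D := Nat.mul_pos hQ hq
  have hDC : (D : ℂ) ≠ 0 := by exact_mod_cast hDpos.ne'
  have hqC : (q : ℂ) ≠ 0 := by exact_mod_cast (show q ≠ 0 by omega)
  set ζ : ℂ := Complex.exp (2 * Real.pi * Complex.I / D) with hζ
  have hprim : IsPrimitiveRoot ζ D := Complex.isPrimitiveRoot_exp D hDpos.ne'
  have hζ0 : ζ ≠ 0 := Complex.exp_ne_zero _
  have hζn : ‖ζ‖ = 1 := hprim.norm'_eq_one hDpos.ne'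
  set σ : Finset ℕ → ℕ → ℂ := fun W i => (sg W i : ℂ) with hσ
  have hσn : ∀ W i, ‖σ W i‖ = 1 := by
    intro W i
    rw [hσ]
    simp only [sg]
    split_ifs <;> simp
  -- the combination
  set cf : Finset ℕ → ℕ → ℕ → Finset ℕ → ℂ := fun W r b H =>
    -(q : ℂ) * (1 / D) * ((ζ ^ (A W r)) ^ b)⁻¹ * (1 / 2) ^ l * ∏ h ∈ H, σ W h with hcf
  have hcfn : ∀ W r b H, ‖cf W r b H‖ = (q : ℝ) * (1 / D) * (1 / 2) ^ l := by
    intro W r b H
    rw [hcf]
    simp only
    rw [norm_mul, norm_mul, norm_mul, norm_mul, norm_neg, norm_inv, norm_pow, norm_pow, hζn,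
      one_pow, one_pow, inv_one, mul_one, norm_prod, prod_eq_one fun h _ => hσn W h, mul_one]
    simp
  set C : ℕ → Finset ℕ → ℂ := fun b H =>
    if H ⊆ range l then ∑ r ∈ range Q, ∑ W ∈ (range l).powerset, cf W r b H else 0 with hC
  refine ⟨C, fun b H => ?_, fun b H hodd => ?_, ?_⟩
  · rw [hC]
    simp only
    split_ifs with h
    · calc ‖∑ r ∈ range Q, ∑ W ∈ (range l).powerset, cf W r b H‖
          ≤ ∑ r ∈ range Q, ∑ W ∈ (range l).powerset, ‖cf W r b H‖ :=
            (norm_sum_le _ _).trans (sum_le_sum fun r _ => norm_sum_le _ _)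
        _ = ∑ _r ∈ range Q, ∑ _W ∈ (range l).powerset, (q : ℝ) * (1 / D) * (1 / 2) ^ l :=
            sum_congr rfl fun r _ => sum_congr rfl fun W _ => hcfn W r b H
        _ = 1 := by
            rw [sum_const, sum_const, card_powerset, card_range, card_range, nsmul_eq_mul,
              nsmul_eq_mul, hD]
            have h1 : (Q : ℝ) ≠ 0 := by exact_mod_cast (show Q ≠ 0 by omega)
            have h2 : (q : ℝ) ≠ 0 := by exact_mod_cast (show q ≠ 0 by omega)
            push_cast
            rw [one_div_pow]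
            field_simp
        _ ≤ 1 := le_rfl
    · simp
  · rw [hC]
    simp only
    split_ifs with h
    · refine sum_eq_zero fun r _ => ?_
      have h1 : ∑ W ∈ (range l).powerset, cf W r b H =
          ∑ W ∈ (range l).powerset, cf (range l \ W) r b H := by
        symm
        apply sum_nbij' (fun W => range l \ W) (fun W => range l \ W)
        · intro W _
          rw [mem_powerset]; exact sdiff_subset
        · intro W _
          rw [mem_powerset]; exact sdiff_subset
        · intro W hW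
          rw [mem_powerset] at hW
          exact Finset.sdiff_sdiff_eq_self hW
        · intro W hW
          rw [mem_powerset] at hW
          exact Finset.sdiff_sdiff_eq_self hW
        · intro W _
          rfl
      have h2 : ∀ W ∈ (range l).powerset, cf (range l \ W) r b H = -cf W r b H := by
        intro W hW
        rw [mem_powerset] at hW
        rw [hcf]
        simp only
        rw [hsym W hW r]
        have h3 : ∏ h ∈ H, σ (range l \ W) h = -∏ h ∈ H, σ W h := by
          have h4 : ∏ h ∈ H, σ (range l \ W) h = ∏ h ∈ H, (-1) * σ W h := by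
            refine prod_congr rfl fun i hi => ?_
            have hil : i < l := mem_range.mp (h hi)
            rw [hσ]
            simp only [sg, mem_sdiff, mem_range, hil, true_and]
            by_cases hiW : i ∈ W <;> simp [hiW]
          rw [h4, prod_mul_distrib, prod_const]
          rw [Nat.not_even_iff_odd] at hodd
          rw [hodd.neg_one_pow, neg_one_mul]
        rw [h3]
        ring
      have h3 : ∑ W ∈ (range l).powerset, cf W r b H = -∑ W ∈ (range l).powerset, cf W r b H := by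
        conv_lhs => rw [h1, sum_congr rfl h2, sum_neg_distrib]
      exact self_eq_neg.mp h3
    · rfl
  -- the identity
  have htw : ∀ (b n : ℕ) (H : Finset ℕ),
      tw f ((b : ℚ) / (D : ℚ), H) n = (ζ ^ n) ^ b * ∏ h ∈ H, (f (n + h) : ℂ) := by
    intro b n H
    rw [tw, ← pow_mul, hζ, ← Complex.exp_nat_mul]
    congr 2
    push_cast
    field_simp
  intro n hn
  -- the indicator of a word
  set ind : Finset ℕ → ℂ := fun W => ∏ i ∈ range l, ((1 + σ W i * (f (n + i) : ℂ)) / 2)
    with hind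
  set u : Finset ℕ → ℕ → ℂ := fun W r => ζ ^ n * (ζ ^ (A W r))⁻¹ with hu
  have hGn : ∑ b ∈ (range D).filter (fun b => ¬ q ∣ b), ∑ H ∈ (range l).powerset,
        C b H * tw f ((b : ℚ) / (D : ℚ), H) n =
      -(q : ℂ) * (1 / D) * ∑ W ∈ (range l).powerset, ∑ r ∈ range Q,
        (∑ b ∈ (range D).filter (fun b => ¬ q ∣ b), u W r ^ b) * ind W := by
    have e1 : ∑ b ∈ (range D).filter (fun b => ¬ q ∣ b), ∑ H ∈ (range l).powerset,
        C b H * tw f ((b : ℚ) / (D : ℚ), H) n =
        ∑ b ∈ (range D).filter (fun b => ¬ q ∣ b), ∑ H ∈ (range l).powerset,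
          ∑ r ∈ range Q, ∑ W ∈ (range l).powerset, cf W r b H * tw f ((b : ℚ) / (D : ℚ), H) n := by
      refine sum_congr rfl fun b _ => sum_congr rfl fun H hH => ?_
      rw [hC]
      simp only
      rw [if_pos (mem_powerset.mp hH), sum_mul]
      exact sum_congr rfl fun r _ => sum_mul _ _ _
    have e2 : ∑ b ∈ (range D).filter (fun b => ¬ q ∣ b), ∑ H ∈ (range l).powerset,
          ∑ r ∈ range Q, ∑ W ∈ (range l).powerset, cf W r b H * tw f ((b : ℚ) / (D : ℚ), H) n =
        ∑ W ∈ (range l).powerset, ∑ r ∈ range Q, ∑ b ∈ (range D).filter (fun b => ¬ q ∣ b),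
          ∑ H ∈ (range l).powerset, cf W r b H * tw f ((b : ℚ) / (D : ℚ), H) n := by
      rw [sum_congr rfl fun b _ => sum_comm]
      rw [sum_comm]
      rw [sum_congr rfl fun r _ => sum_congr rfl fun b _ => sum_comm]
      rw [sum_congr rfl fun r _ => sum_comm]
      rw [sum_comm]
    rw [e1, e2, mul_sum]
    refine sum_congr rfl fun W _ => ?_
    rw [mul_sum]
    refine sum_congr rfl fun r _ => ?_
    rw [sum_mul, mul_sum]
    refine sum_congr rfl fun b _ => ?_
    rw [hind]
    simp only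
    rw [prod_eq, ← mul_assoc, ← mul_assoc, mul_sum]
    refine sum_congr rfl fun H _ => ?_
    rw [htw, hcf, hu]
    simp only
    rw [mul_pow, inv_pow]
    ring
  -- the word of n
  set W0 : Finset ℕ := (range l).filter (fun i => f (n + i) = 1) with hW0
  have hW0mem : W0 ∈ (range l).powerset := by
    rw [mem_powerset]; exact filter_subset _ _
  have hσ0 : ∀ i < l, σ W0 i * (f (n + i) : ℂ) = 1 := by
    intro i hi
    rw [hσ]
    simp only [sg, hW0, mem_filter, mem_range, hi, true_and]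
    rcases hf.1 (n + i) (by omega) with h | h
    · simp [h]
    · simp [h]
  have hind0 : ind W0 = 1 := by
    rw [hind]
    simp only
    refine prod_eq_one fun i hi => ?_
    rw [hσ0 i (mem_range.mp hi)]
    norm_num
  have hind1 : ∀ W ∈ (range l).powerset, W ≠ W0 → ind W = 0 := by
    intro W hW hne
    rw [mem_powerset] at hW
    obtain ⟨i, hi, hiW⟩ : ∃ i < l, ¬ (i ∈ W ↔ i ∈ W0) := by
      by_contra hcon
      push Not at hcon
      apply hne
      ext i
      constructor
      · intro hi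
        exact (hcon i (mem_range.mp (hW hi))).mp hi
      · intro hi
        exact (hcon i (mem_range.mp (filter_subset _ _ hi))).mpr hi
    rw [hind]
    simp only
    refine prod_eq_zero (mem_range.mpr hi) ?_
    have h0 := hσ0 i hi
    have : σ W i = - σ W0 i := by
      rw [hσ]
      simp only [sg]
      by_cases h1 : i ∈ W <;> by_cases h2 : i ∈ W0 <;> simp [h1, h2] at hiW ⊢
    rw [this, neg_mul, h0]
    norm_num
  have hsumW : ∀ F : Finset ℕ → ℂ, ∑ W ∈ (range l).powerset, F W * ind W = F W0 := by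
    intro F
    rw [sum_eq_single_of_mem W0 hW0mem, hind0, mul_one]
    intro W hW hne
    rw [hind1 W hW hne, mul_zero]
  have hsum : ∑ W ∈ (range l).powerset, ∑ r ∈ range Q,
      (∑ b ∈ (range D).filter (fun b => ¬ q ∣ b), u W r ^ b) * ind W =
      ∑ r ∈ range Q, ∑ b ∈ (range D).filter (fun b => ¬ q ∣ b), u W0 r ^ b := by
    rw [← hsumW fun W => ∑ r ∈ range Q,
      ∑ b ∈ (range D).filter (fun b => ¬ q ∣ b), u W r ^ b]
    refine sum_congr rfl fun W _ => ?_
    rw [sum_mul]
  rw [hGn, hsum]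
  -- evaluation of the sums over b
  have huD : ∀ r, u W0 r ^ D = 1 := by
    intro r
    rw [hu]
    simp only
    have e1 : ∀ m : ℕ, (ζ ^ m) ^ D = 1 := by
      intro m
      rw [← pow_mul, mul_comm, pow_mul, hprim.pow_eq_one, one_pow]
    rw [mul_pow, inv_pow, e1, e1, inv_one, mul_one]
  have hu1 : ∀ r, u W0 r ≠ 1 := by
    intro r h
    have h1 : ζ ^ n = ζ ^ (A W0 r) := by
      rw [hu] at h
      simp only at h
      have h2 : ζ ^ (A W0 r) ≠ 0 := pow_ne_zero _ hζ0
      field_simp at h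
      exact h
    have h2 : n ≡ A W0 r [MOD D] := (root_pow_eq_iff hprim hζ0).mp h1
    obtain ⟨i, hi, hne⟩ := hno W0 (mem_powerset.mp hW0mem) r n hn h2
    apply hne
    rcases hf.1 (n + i) (by omega) with h | h
    · simp [sg, hW0, hi, h]
    · simp [sg, hW0, h]
  have huq : ∀ r < Q, (u W0 r ^ q = 1 ↔ r = n % Q) := by
    intro r hr
    have hprim2 : IsPrimitiveRoot (ζ ^ q) Q := hprim.pow hDpos (by rw [hD, mul_comm])
    have h0 : u W0 r ^ q = (ζ ^ q) ^ n * ((ζ ^ q) ^ (A W0 r))⁻¹ := by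
      rw [hu]
      simp only
      rw [mul_pow, inv_pow, ← pow_mul, ← pow_mul, ← pow_mul, ← pow_mul, mul_comm n,
        mul_comm (A W0 r)]
    have h00 : (ζ ^ q) ^ (A W0 r) ≠ 0 := pow_ne_zero _ (pow_ne_zero _ hζ0)
    rw [h0, mul_inv_eq_one₀ h00, root_pow_eq_iff hprim2 (pow_ne_zero _ hζ0)]
    constructor
    · intro h
      have h2 := h.trans (hA W0 r)
      have h3 : n % Q = r % Q := h2
      rw [Nat.mod_eq_of_lt hr] at h3
      exact h3.symm
    · intro h
      refine Nat.ModEq.trans ?_ (hA W0 r).symm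
      show n % Q = r % Q
      rw [Nat.mod_eq_of_lt hr, h]
  have hbsum : ∀ r < Q, ∑ b ∈ (range D).filter (fun b => ¬ q ∣ b), u W0 r ^ b =
      - if r = n % Q then (Q : ℂ) else 0 := by
    intro r hr
    have h1 := sum_pow_eq (u W0 r) (huD r)
    rw [if_neg (hu1 r), ← sum_filter_add_sum_filter_not (range D) (fun b => q ∣ b)] at h1
    have h2 : ∑ b ∈ (range D).filter (fun b => q ∣ b), u W0 r ^ b =
        if r = n % Q then (Q : ℂ) else 0 := by
      rw [hD, sum_mult hq, sum_pow_eq]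
      · by_cases h : r = n % Q
        · rw [if_pos h, if_pos ((huq r hr).mpr h)]
        · rw [if_neg h, if_neg (fun h' => h ((huq r hr).mp h'))]
      · rw [← pow_mul, mul_comm q Q]
        exact huD r
    rw [h2] at h1
    linear_combination h1
  rw [sum_congr rfl fun r hr => hbsum r (mem_range.mp hr), sum_neg_distrib,
    sum_ite_eq' (range Q) (n % Q) (fun _ => (Q : ℂ)), if_pos (mem_range.mpr (Nat.mod_lt _ hQ))]
  rw [hD]
  have hQC : (Q : ℂ) ≠ 0 := by exact_mod_cast (show Q ≠ 0 by omega)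
  push_cast
  field_simp

/-- (7) implies (3). -/
theorem words_of_not_comb {f : ℕ → ℤ} (hf : IsCM f) {Q : ℕ} (hQ : 1 ≤ Q)
    (h : ∀ s, Outside Q s → (∀ p ∈ s, Even p.2.card) → ¬ Comb f s)
    (q : ℕ) (hq : 1 ≤ q) (l : ℕ) : ∃ (w : ℕ → ℤ) (r : ℕ), ∀ a, a ≡ r [MOD Q] →
      ∃ n, 1 ≤ n ∧ n ≡ a [MOD Q * q] ∧ ∀ i < l, f (n + i) = f n * w i := by
  classical
  by_contra hcon
  push Not at hcon
  -- the excluded classes
  choose A0 hA0 hno using fun (W : Finset ℕ) (r : ℕ) => hcon (fun i => sg W 0 * sg W i) r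
  have hsg2 : ∀ W i, sg W i * sg W i = 1 := by
    intro W i
    rw [sg]; split_ifs <;> norm_num
  have h0 : ∀ W r n, 1 ≤ n → n ≡ A0 W r [MOD Q * q] →
      ¬ (∀ i < l, f (n + i) = sg W i) ∧ ¬ (∀ i < l, f (n + i) = -sg W i) := by
    intro W r n hn hna
    obtain ⟨i, hi, hne⟩ := hno W r n hn hna
    constructor
    · intro h
      apply hne
      have h1 := h 0 (by omega)
      rw [add_zero] at h1
      rw [h i hi, h1, ← mul_assoc, hsg2, one_mul]
    · intro h
      apply hne
      have h1 := h 0 (by omega)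
      rw [add_zero] at h1
      rw [h i hi, h1]
      linear_combination (sg W i) * hsg2 W 0
  obtain ⟨A, hA1, hsym, hA2⟩ := symmetrize A0 h0
  have hA : ∀ W r, A W r ≡ r [MOD Q] := by
    intro W r
    obtain ⟨W', hW'⟩ := hA1 W r
    rw [hW']
    exact hA0 W' r
  obtain ⟨C, -, hC0, hC1⟩ := identity hf hQ hq A hA hsym hA2
  set D : ℕ := Q * q with hD
  set G : ℕ → ℂ := ∑ b ∈ (range D).filter (fun b => ¬ q ∣ b), ∑ H ∈ (range l).powerset,
      C b H • tw f ((b : ℚ) / (D : ℚ), H) with hG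
  have hspan : G ∈ Submodule.span ℂ (tw f '' Pairs Q) := by
    refine Submodule.sum_mem _ fun b hb => Submodule.sum_mem _ fun H _ => ?_
    by_cases hH : Even H.card
    · refine Submodule.smul_mem _ _ (Submodule.subset_span ⟨_, ⟨?_, hH⟩, rfl⟩)
      intro z hz
      rw [mem_filter] at hb
      apply hb.2
      have hqQ : (q : ℚ) ≠ 0 := by exact_mod_cast (show q ≠ 0 by omega)
      have hQQ : (Q : ℚ) ≠ 0 := by exact_mod_cast (show Q ≠ 0 by omega)
      have h1 : (b : ℚ) = q * z := by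
        have : (Q : ℚ) * ((b : ℚ) / D) = z := hz
        rw [hD] at this
        push_cast at this
        field_simp at this
        linarith
      have h2 : (b : ℤ) = q * z := by exact_mod_cast h1
      have h3 : (q : ℤ) ∣ (b : ℤ) := ⟨z, h2⟩
      exact_mod_cast h3
    · rw [hC0 b H hH, zero_smul]
      exact Submodule.zero_mem _
  obtain ⟨s, hs1, hs2, hs3⟩ := comb_of_mem_span hspan fun n hn => by
    rw [hG]
    simp only [Finset.sum_apply, Pi.smul_apply, smul_eq_mul]
    exact hC1 n hn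
  exact h s hs1 hs2 hs3

/-- The explicit lower bound for one twisted correlation of even order. -/
theorem large_correlation {f : ℕ → ℤ} (hf : IsCM f) {k l : ℕ} (hl : VDW k l)
    (hno : ¬ HasBlock f k) (T : Finset ℕ) (ω : ℕ → ℝ) (hT : ∀ n ∈ T, 1 ≤ n ∧ 0 ≤ ω n)
    (hω : ∑ n ∈ T, ω n = 1) :
    ∃ (b : ℕ) (H : Finset ℕ), 1 ≤ b ∧ b < ((l - 1) / (k - 1)).factorial ∧ H ⊆ range l ∧
      Even H.card ∧ 1 / (((l - 1) / (k - 1)).factorial * 2 ^ l : ℝ) ≤
        ‖∑ n ∈ T, (ω n : ℂ) * tw f ((b : ℚ) / ((l - 1) / (k - 1)).factorial, H) n‖ := by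
  classical
  set q : ℕ := ((l - 1) / (k - 1)).factorial with hq
  have hq1 : 1 ≤ q := Nat.factorial_pos _
  choose a ha using fun W => excluded hf hl hno W
  obtain ⟨A, hA1, hsym, hA2⟩ := symmetrize (f := f) (l := l) (M := 1 * q) (fun W _ => a W)
    (fun W r n hn hna => ha W n hn (by rwa [one_mul] at hna))
  obtain ⟨C, hCn, hC0, hC1⟩ := identity hf le_rfl hq1 A (fun W r => Nat.modEq_one) hsym hA2
  rw [one_mul] at hC1
  by_contra hcon
  push Not at hcon
  set δ : ℝ := 1 / ((q : ℝ) * 2 ^ l) with hδ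
  have hqpos : (0 : ℝ) < q := by exact_mod_cast hq1
  have hδpos : 0 < δ := by positivity
  set E : ℕ → Finset ℕ → ℂ := fun b H => ∑ n ∈ T, (ω n : ℂ) * tw f ((b : ℚ) / (q : ℚ), H) n
    with hE
  have h1 : (1 : ℂ) = ∑ b ∈ (range q).filter (fun b => ¬ q ∣ b), ∑ H ∈ (range l).powerset,
      C b H * E b H := by
    calc (1 : ℂ) = ∑ n ∈ T, (ω n : ℂ) * 1 := by
          rw [← sum_mul, mul_one, ← Complex.ofReal_sum, hω, Complex.ofReal_one]
      _ = ∑ n ∈ T, (ω n : ℂ) * ∑ b ∈ (range q).filter (fun b => ¬ q ∣ b),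
            ∑ H ∈ (range l).powerset, C b H * tw f ((b : ℚ) / (q : ℚ), H) n :=
          sum_congr rfl fun n hn => by rw [hC1 n (hT n hn).1]
      _ = ∑ n ∈ T, ∑ b ∈ (range q).filter (fun b => ¬ q ∣ b),
            ∑ H ∈ (range l).powerset, (ω n : ℂ) * (C b H * tw f ((b : ℚ) / (q : ℚ), H) n) := by
          refine sum_congr rfl fun n _ => ?_
          rw [mul_sum]
          exact sum_congr rfl fun b _ => mul_sum _ _ _
      _ = ∑ b ∈ (range q).filter (fun b => ¬ q ∣ b), ∑ H ∈ (range l).powerset,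
            ∑ n ∈ T, (ω n : ℂ) * (C b H * tw f ((b : ℚ) / (q : ℚ), H) n) := by
          rw [sum_comm]
          exact sum_congr rfl fun b _ => sum_comm
      _ = _ := by
          refine sum_congr rfl fun b _ => sum_congr rfl fun H _ => ?_
          rw [hE]
          simp only
          rw [mul_sum]
          exact sum_congr rfl fun n _ => by ring
  have hterm : ∀ b ∈ (range q).filter (fun b => ¬ q ∣ b), ∀ H ∈ (range l).powerset,
      ‖C b H * E b H‖ ≤ δ := by
    intro b hb H hH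
    rw [mem_filter, mem_range] at hb
    rw [mem_powerset] at hH
    by_cases hev : Even H.card
    · have hb1 : 1 ≤ b := by
        rcases Nat.eq_zero_or_pos b with h0 | h0
        · exact absurd (h0 ▸ dvd_zero q) hb.2
        · exact h0
      have h2 := hcon b H hb1 hb.1 hH hev
      rw [norm_mul]
      calc ‖C b H‖ * ‖E b H‖ ≤ 1 * ‖E b H‖ :=
            mul_le_mul_of_nonneg_right (hCn b H) (norm_nonneg _)
        _ ≤ δ := by rw [one_mul]; exact h2.le
    · rw [hC0 b H hev, zero_mul, norm_zero]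
      exact hδpos.le
  have hcard : (((range q).filter (fun b => ¬ q ∣ b)).card : ℝ) ≤ q - 1 := by
    have h2 : (range q).filter (fun b => ¬ q ∣ b) ⊆ (range q).erase 0 := by
      intro b hb
      rw [mem_filter] at hb
      rw [mem_erase]
      exact ⟨fun h0 => hb.2 (h0 ▸ dvd_zero q), hb.1⟩
    have h3 := card_le_card h2
    rw [card_erase_of_mem (mem_range.mpr hq1), card_range] at h3
    have h4 : (((range q).filter (fun b => ¬ q ∣ b)).card : ℝ) ≤ ((q - 1 : ℕ) : ℝ) := by
      exact_mod_cast h3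
    rwa [Nat.cast_sub hq1, Nat.cast_one] at h4
  have h5 : (1 : ℝ) ≤ (q - 1) * (2 ^ l * δ) := by
    calc (1 : ℝ) = ‖(1 : ℂ)‖ := by simp
      _ = ‖∑ b ∈ (range q).filter (fun b => ¬ q ∣ b), ∑ H ∈ (range l).powerset,
            C b H * E b H‖ := by rw [← h1]
      _ ≤ ∑ b ∈ (range q).filter (fun b => ¬ q ∣ b), ∑ H ∈ (range l).powerset,
            ‖C b H * E b H‖ := (norm_sum_le _ _).trans (sum_le_sum fun b _ => norm_sum_le _ _)
      _ ≤ ∑ _b ∈ (range q).filter (fun b => ¬ q ∣ b), ∑ _H ∈ (range l).powerset, δ :=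
          sum_le_sum fun b hb => sum_le_sum fun H hH => hterm b hb H hH
      _ = (((range q).filter (fun b => ¬ q ∣ b)).card : ℝ) * (2 ^ l * δ) := by
          rw [sum_const, sum_const, card_powerset, card_range, nsmul_eq_mul, nsmul_eq_mul]
          push_cast
          ring
      _ ≤ (q - 1) * (2 ^ l * δ) := mul_le_mul_of_nonneg_right hcard (by positivity)
  have h6 : (2 : ℝ) ^ l * δ = 1 / q := by
    rw [hδ]
    field_simp
  rw [h6, mul_one_div, le_div_iff₀ hqpos] at h5
  linarith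

end Pool.Agent.helper21.BBE
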