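import Mathlib
import Pool.Agent.helper21.BBE.Defs
import Pool.Agent.helper21.BBE.Span

namespace Pool.Agent.helper21.BBE

open Finset

/-- The frequencies in `s` are small on average over an interval. -/
theorem exp_ne_one {θ : ℚ} (h : ∀ z : ℤ, θ ≠ z) :
    Complex.exp (2 * Real.pi * Complex.I * (θ : ℂ)) ≠ 1 := by
  intro h1
  rw [Complex.exp_eq_one_iff] at h1
  obtain ⟨n, hn⟩ := h1
  apply h n
  have h2 : (2 * Real.pi * Complex.I : ℂ) ≠ 0 := Complex.two_pi_I_ne_zero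
  have h3 : (θ : ℂ) = (n : ℂ) := by
    apply mul_left_cancel₀ h2
    rw [hn]; ring
  exact_mod_cast h3

/-- (1) implies (4). -/
theorem averages_of_blocks {f : ℕ → ℤ} (hf : IsCM f) (h : ∀ k, HasBlock f k)
    (s : Finset (ℚ × Finset ℕ)) (hs : Outside 1 s) {ε : ℝ} (hε : 0 < ε) (N : ℕ) :
    ∃ M L : ℕ, 1 ≤ M ∧ N < L ∧ ∀ p ∈ s, ‖∑ n ∈ Ico M (M + L), tw f p n‖ ≤ ε * L := by
  classical
  set z : ℚ × Finset ℕ → ℂ := fun p => Complex.exp (2 * Real.pi * Complex.I * (p.1 : ℂ)) with hz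
  have hz1 : ∀ p ∈ s, z p ≠ 1 := by
    intro p hp
    refine exp_ne_one fun w hw => hs p hp w ?_
    rw [Nat.cast_one, one_mul, hw]
  set C : ℝ := ∑ p ∈ s, 2 / ‖z p - 1‖ with hC
  have hC0 : 0 ≤ C := sum_nonneg fun p _ => by positivity
  obtain ⟨L1, hL1⟩ := exists_nat_gt (C / ε)
  obtain ⟨L, hLN, hL⟩ : ∃ L : ℕ, N ≤ L ∧ C / ε < L :=
    ⟨max L1 N, le_max_right _ _, lt_of_lt_of_le hL1 (by exact_mod_cast le_max_left _ _)⟩
  set h0 : ℕ := ∑ p ∈ s, ∑ i ∈ p.2, i with hh0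
  obtain ⟨M, hM, hb⟩ := h (L + 1 + h0 + 1)
  refine ⟨M, L + 1, hM, by omega, fun p hp => ?_⟩
  have hz0 : ‖z p‖ = 1 := by
    have : z p = Complex.exp (((2 * Real.pi * (p.1 : ℝ) : ℝ) : ℂ) * Complex.I) := by
      rw [hz]
      push_cast
      congr 1
      ring
    rw [this, Complex.norm_exp_ofReal_mul_I]
  have htw : ∀ n ∈ Ico M (M + (L + 1)), tw f p n = (f M : ℂ) ^ p.2.card * z p ^ n := by
    intro n hn
    rw [mem_Ico] at hn
    rw [tw, mul_comm]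
    congr 1
    · rw [← prod_const]
      refine prod_congr rfl fun i hi => ?_
      have h1 : i ≤ h0 := by
        calc i ≤ ∑ i ∈ p.2, i := single_le_sum (f := fun i => i) (fun _ _ => Nat.zero_le _) hi
          _ ≤ h0 := single_le_sum (f := fun p : ℚ × Finset ℕ => ∑ i ∈ p.2, i)
              (fun _ _ => Nat.zero_le _) hp
      have h2 : f (n + i) = f M := by
        have := hb (n - M + i) (by omega)
        rw [← this]
        congr 1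
        omega
      rw [h2]
    · rw [hz, ← Complex.exp_nat_mul]
      congr 1
      ring
  rw [sum_congr rfl htw, ← mul_sum, norm_mul, norm_pow]
  have hfM : ‖(f M : ℂ)‖ = 1 := by
    rcases hf.1 M hM with h | h <;> simp [h]
  rw [hfM, one_pow, one_mul, geom_sum_Ico (hz1 p hp) (by omega), norm_div]
  have h1 : ‖z p ^ (M + (L + 1)) - z p ^ M‖ ≤ 2 := by
    calc ‖z p ^ (M + (L + 1)) - z p ^ M‖ ≤ ‖z p ^ (M + (L + 1))‖ + ‖z p ^ M‖ := norm_sub_le _ _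
      _ = 2 := by rw [norm_pow, norm_pow, hz0, one_pow, one_pow]; norm_num
  have h2 : 0 < ‖z p - 1‖ := norm_pos_iff.mpr (sub_ne_zero.mpr (hz1 p hp))
  calc ‖z p ^ (M + (L + 1)) - z p ^ M‖ / ‖z p - 1‖ ≤ 2 / ‖z p - 1‖ := by gcongr
    _ ≤ C := single_le_sum (f := fun p => 2 / ‖z p - 1‖) (fun p _ => by positivity) hp
    _ ≤ ε * ((L + 1 : ℕ) : ℝ) := by
        have h3 : C < L * ε := (div_lt_iff₀ hε).mp hL
        push_cast
        nlinarith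

/-- A finite combination with small averages is not `1`. -/
theorem not_comb_of_weights {f : ℕ → ℤ} {s : Finset (ℚ × Finset ℕ)}
    (h : ∀ ε : ℝ, 0 < ε →
      ∃ (T : Finset ℕ) (ω : ℕ → ℝ), (∀ n ∈ T, 1 ≤ n ∧ 0 ≤ ω n) ∧ ∑ n ∈ T, ω n = 1 ∧
        ∀ p ∈ s, ‖∑ n ∈ T, (ω n : ℂ) * tw f p n‖ ≤ ε) : ¬ Comb f s := by
  rintro ⟨c, h1⟩
  set C : ℝ := ∑ p ∈ s, ‖c p‖ with hC
  have hC0 : 0 ≤ C := sum_nonneg fun p _ => norm_nonneg _
  obtain ⟨T, ω, hT, hω, hsm⟩ := h (1 / (C + 1)) (by positivity)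
  have h2 : (1 : ℂ) = ∑ p ∈ s, c p * ∑ n ∈ T, (ω n : ℂ) * tw f p n := by
    calc (1 : ℂ) = ∑ n ∈ T, (ω n : ℂ) * 1 := by
          rw [← sum_mul, mul_one, ← Complex.ofReal_sum, hω, Complex.ofReal_one]
      _ = ∑ n ∈ T, (ω n : ℂ) * ∑ p ∈ s, c p * tw f p n :=
          sum_congr rfl fun n hn => by rw [h1 n (hT n hn).1]
      _ = ∑ n ∈ T, ∑ p ∈ s, (ω n : ℂ) * (c p * tw f p n) :=
          sum_congr rfl fun n _ => by rw [mul_sum]
      _ = ∑ p ∈ s, ∑ n ∈ T, (ω n : ℂ) * (c p * tw f p n) := sum_comm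
      _ = ∑ p ∈ s, c p * ∑ n ∈ T, (ω n : ℂ) * tw f p n := by
          refine sum_congr rfl fun p _ => ?_
          rw [mul_sum]
          exact sum_congr rfl fun n _ => by ring
  have h3 : (1 : ℝ) ≤ C * (1 / (C + 1)) := by
    calc (1 : ℝ) = ‖(1 : ℂ)‖ := by simp
      _ = ‖∑ p ∈ s, c p * ∑ n ∈ T, (ω n : ℂ) * tw f p n‖ := by rw [← h2]
      _ ≤ ∑ p ∈ s, ‖c p * ∑ n ∈ T, (ω n : ℂ) * tw f p n‖ := norm_sum_le _ _
      _ ≤ ∑ p ∈ s, ‖c p‖ * (1 / (C + 1)) := by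
          refine sum_le_sum fun p hp => ?_
          rw [norm_mul]
          exact mul_le_mul_of_nonneg_left (hsm p hp) (norm_nonneg _)
      _ = C * (1 / (C + 1)) := by rw [← sum_mul]
  have h4 : C * (1 / (C + 1)) < 1 := by
    rw [mul_one_div, div_lt_one (by positivity)]
    linarith
  linarith

/-- Interval averages are weights. -/
theorem weights_of_interval {f : ℕ → ℤ} {s : Finset (ℚ × Finset ℕ)} {ε : ℝ} {M L : ℕ}
    (hM : 1 ≤ M) (hL : 1 ≤ L)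
    (hsm : ∀ p ∈ s, ‖∑ n ∈ Ico M (M + L), tw f p n‖ ≤ ε * L) :
    ∃ (T : Finset ℕ) (ω : ℕ → ℝ), (∀ n ∈ T, 1 ≤ n ∧ 0 ≤ ω n) ∧ ∑ n ∈ T, ω n = 1 ∧
        ∀ p ∈ s, ‖∑ n ∈ T, (ω n : ℂ) * tw f p n‖ ≤ ε := by
  have hL0 : (0 : ℝ) < L := by exact_mod_cast hL
  refine ⟨Ico M (M + L), fun _ => 1 / L, fun n hn => ⟨?_, by positivity⟩, ?_, fun p hp => ?_⟩
  · rw [mem_Ico] at hn; omega
  · rw [sum_const, Nat.card_Ico, nsmul_eq_mul]
    rw [show M + L - M = L by omega]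
    field_simp
  · rw [← mul_sum, norm_mul]
    have h1 : ‖((1 / (L : ℝ) : ℝ) : ℂ)‖ = 1 / L := by
      rw [Complex.norm_real, Real.norm_of_nonneg (by positivity)]
    rw [h1]
    calc 1 / (L : ℝ) * ‖∑ n ∈ Ico M (M + L), tw f p n‖ ≤ 1 / (L : ℝ) * (ε * L) :=
          mul_le_mul_of_nonneg_left (hsm p hp) (by positivity)
      _ = ε := by field_simp

end Pool.Agent.helper21.BBE
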