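import Mathlib
import Pool.Agent.helper21.BBE.Defs

namespace Pool.Agent.helper21.BBE

open MeasureTheory Filter Set

variable {Ω : Type*} [MeasurableSpace Ω] {μ : Measure Ω} {T : Ω → Ω}

/-- `B` is invariant under `T^m` up to null sets. -/
def Inv (T : Ω → Ω) (μ : Measure Ω) (m : ℕ) (B : Set Ω) : Prop :=
  MeasurableSet B ∧ (T^[m]) ⁻¹' B =ᵐ[μ] B

theorem Inv.preim (hT : MeasurePreserving T μ μ) {m : ℕ} {B : Set Ω} (hB : Inv T μ m B) (i : ℕ) :
    Inv T μ m ((T^[i]) ⁻¹' B) := by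
  refine ⟨(hT.iterate i).measurable hB.1, ?_⟩
  have h1 : (T^[m]) ⁻¹' ((T^[i]) ⁻¹' B) = (T^[i]) ⁻¹' ((T^[m]) ⁻¹' B) := by
    rw [← preimage_comp, ← preimage_comp, ← Function.iterate_add, ← Function.iterate_add, add_comm]
  rw [h1]
  exact (hT.iterate i).quasiMeasurePreserving.preimage_ae_eq hB.2

theorem Inv.inter {m : ℕ} {B C : Set Ω} (hB : Inv T μ m B) (hC : Inv T μ m C) :
    Inv T μ m (B ∩ C) := ⟨hB.1.inter hC.1, hB.2.inter hC.2⟩

theorem Inv.diff {m : ℕ} {B C : Set Ω} (hB : Inv T μ m B) (hC : Inv T μ m C) :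
    Inv T μ m (B \ C) := ⟨hB.1.diff hC.1, hB.2.diff hC.2⟩

/-- The translates of an invariant set of positive measure cover everything. -/
theorem cover [IsProbabilityMeasure μ] (hT : Ergodic T μ) {m : ℕ} (hm : 1 ≤ m) {B : Set Ω}
    (hB : Inv T μ m B) (h0 : μ B ≠ 0) : ∀ᵐ x ∂μ, ∃ i < m, T^[i] x ∈ B := by
  set U : Set Ω := {x | ∃ i < m, T^[i] x ∈ B} with hU
  have hUm : MeasurableSet U := by
    have : U = ⋃ i, ⋃ (_ : i < m), (T^[i]) ⁻¹' B := by
      ext x; simp [hU]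
    rw [this]
    exact MeasurableSet.iUnion fun i => MeasurableSet.iUnion fun _ =>
      (hT.toMeasurePreserving.iterate i).measurable hB.1
  have hle : T ⁻¹' U ≤ᵐ[μ] U := by
    have h2 : ∀ᵐ x ∂μ, (T^[m] x ∈ B ↔ x ∈ B) := eventuallyEq_set.mp hB.2
    filter_upwards [h2] with x hx hxU
    obtain ⟨i, hi, hxi⟩ := hxU
    rw [← Function.iterate_succ_apply] at hxi
    rcases Nat.lt_or_ge (i + 1) m with h | h
    · exact ⟨i + 1, h, hxi⟩
    · have : i.succ = m := by omega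
      rw [this] at hxi
      exact ⟨0, by omega, hx.mp hxi⟩
  rcases hT.ae_empty_or_univ_of_preimage_ae_le hUm.nullMeasurableSet hle with h | h
  · exfalso
    apply h0
    have h1 : μ U = 0 := by rw [measure_congr h, measure_empty]
    have h2 : B ⊆ U := fun x hx => ⟨0, by omega, hx⟩
    exact measure_mono_null h2 h1
  · rw [ae_eq_univ, compl_def] at h
    exact h

theorem Inv.pos [IsProbabilityMeasure μ] (hT : Ergodic T μ) {m : ℕ} (hm : 1 ≤ m) {B : Set Ω}
    (hB : Inv T μ m B) (h0 : μ B ≠ 0) : 1 / (m : ℝ) ≤ μ.real B := by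
  have h1 := cover hT hm hB h0
  have h2 : (univ : Set Ω) ≤ᵐ[μ] ⋃ i ∈ Finset.range m, (T^[i]) ⁻¹' B := by
    filter_upwards [h1] with x hx _
    obtain ⟨i, hi, hxi⟩ := hx
    show x ∈ ⋃ i ∈ Finset.range m, (T^[i]) ⁻¹' B
    simp only [mem_iUnion, Finset.mem_range]
    exact ⟨i, hi, hxi⟩
  have h3 : (1 : ENNReal) ≤ m * μ B := by
    calc (1 : ENNReal) = μ univ := measure_univ.symm
      _ ≤ μ (⋃ i ∈ Finset.range m, (T^[i]) ⁻¹' B) := measure_mono_ae h2
      _ ≤ ∑ i ∈ Finset.range m, μ ((T^[i]) ⁻¹' B) := measure_biUnion_finset_le _ _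
      _ = ∑ _i ∈ Finset.range m, μ B := Finset.sum_congr rfl fun i _ =>
          (hT.toMeasurePreserving.iterate i).measure_preimage hB.1.nullMeasurableSet
      _ = m * μ B := by rw [Finset.sum_const, Finset.card_range, nsmul_eq_mul]
  have h4 : (1 : ℝ) ≤ m * μ.real B := by
    have h5 : ((1 : ENNReal)).toReal ≤ (m * μ B).toReal :=
      ENNReal.toReal_mono (ENNReal.mul_ne_top (ENNReal.natCast_ne_top m) (measure_ne_top μ B)) h3
    rw [ENNReal.toReal_one, ENNReal.toReal_mul, ENNReal.toReal_natCast] at h5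
    exact h5
  have hm0 : (0 : ℝ) < m := by exact_mod_cast hm
  rw [div_le_iff₀ hm0]
  linarith

/-- An atom of the `T^m`-invariant sets. -/
theorem exists_atom [IsProbabilityMeasure μ] (hT : Ergodic T μ) {m : ℕ} (hm : 1 ≤ m) :
    ∃ A, Inv T μ m A ∧ μ A ≠ 0 ∧ ∀ (i : ℕ) (B : Set Ω), Inv T μ m B →
      μ ((T^[i]) ⁻¹' A ∩ B) = 0 ∨ μ ((T^[i]) ⁻¹' A \ B) = 0 := by
  set S : Set ℝ := {r | ∃ B, Inv T μ m B ∧ μ B ≠ 0 ∧ r = μ.real B} with hS
  have hne : S.Nonempty := ⟨1, univ, ⟨MeasurableSet.univ, by rw [preimage_univ]⟩, by simp, by simp⟩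
  have hlb : ∀ r ∈ S, 1 / (m : ℝ) ≤ r := by
    rintro r ⟨B, hB, h0, rfl⟩
    exact hB.pos hT hm h0
  have hbdd : BddBelow S := ⟨_, hlb⟩
  have hinf : 1 / (m : ℝ) ≤ sInf S := le_csInf hne hlb
  have hm0 : (0 : ℝ) < m := by exact_mod_cast hm
  have hpos : 0 < sInf S := lt_of_lt_of_le (by positivity) hinf
  obtain ⟨r, ⟨A, hA, hA0, rfl⟩, hlt⟩ := exists_lt_of_csInf_lt hne
    (show sInf S < 2 * sInf S by linarith)
  refine ⟨A, hA, hA0, fun i B hB => ?_⟩
  by_contra hcon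
  push Not at hcon
  obtain ⟨h1, h2⟩ := hcon
  have hAi : Inv T μ m ((T^[i]) ⁻¹' A) := hA.preim hT.toMeasurePreserving i
  have h3 : sInf S ≤ μ.real ((T^[i]) ⁻¹' A ∩ B) := csInf_le hbdd ⟨_, hAi.inter hB, h1, rfl⟩
  have h4 : sInf S ≤ μ.real ((T^[i]) ⁻¹' A \ B) := csInf_le hbdd ⟨_, hAi.diff hB, h2, rfl⟩
  have h5 : μ.real ((T^[i]) ⁻¹' A ∩ B) + μ.real ((T^[i]) ⁻¹' A \ B) =
      μ.real ((T^[i]) ⁻¹' A) := measureReal_inter_add_sdiff hB.1
  have h6 : μ.real ((T^[i]) ⁻¹' A) = μ.real A := by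
    simp only [Measure.real]
    rw [(hT.toMeasurePreserving.iterate i).measure_preimage hA.1.nullMeasurableSet]
  linarith

/-- The cyclic structure of the `T^m`-invariant sets. -/
theorem cyclic_structure [IsProbabilityMeasure μ] (hT : Ergodic T μ) {m : ℕ} (hm : 1 ≤ m) :
    ∃ (c : ℕ) (φ : Ω → ZMod c), 1 ≤ c ∧ c ∣ m ∧ Measurable φ ∧
      (∀ᵐ x ∂μ, φ (T x) = φ x + 1) ∧ (∀ i, μ (φ ⁻¹' {i}) ≠ 0) ∧
      ∀ (i : ZMod c) (B : Set Ω), Inv T μ m B →
        μ (φ ⁻¹' {i} ∩ B) = 0 ∨ μ (φ ⁻¹' {i} \ B) = 0 := by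
  classical
  obtain ⟨A, hA, hA0, hatom⟩ := exists_atom hT hm
  have hmp := hT.toMeasurePreserving
  have hex : ∃ i, 1 ≤ i ∧ μ (A ∩ (T^[i]) ⁻¹' A) ≠ 0 := by
    refine ⟨m, hm, ?_⟩
    have h1 : (A ∩ (T^[m]) ⁻¹' A : Set Ω) =ᵐ[μ] A := by
      have := (EventuallyEq.refl (ae μ) A).inter hA.2
      rwa [inter_self] at this
    rw [measure_congr h1]
    exact hA0
  set c := Nat.find hex with hc
  obtain ⟨hc1, hcA⟩ := Nat.find_spec hex
  rw [← hc] at hc1 hcA
  have hmin : ∀ i, 1 ≤ i → i < c → μ (A ∩ (T^[i]) ⁻¹' A) = 0 := by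
    intro i hi hic
    by_contra h
    exact Nat.find_min hex hic ⟨hi, h⟩
  -- A is invariant under T^c
  have hAc : (T^[c]) ⁻¹' A =ᵐ[μ] A := by
    have h1 := hatom 0 _ (hA.preim hmp c)
    rw [Function.iterate_zero, preimage_id] at h1
    rcases h1 with h1 | h1
    · exact absurd h1 hcA
    · have h2 : A ≤ᵐ[μ] (T^[c]) ⁻¹' A := ae_le_set.mpr h1
      symm
      refine ae_eq_of_ae_subset_of_measure_ge h2 ?_ hA.1.nullMeasurableSet (measure_ne_top _ _)
      rw [(hmp.iterate c).measure_preimage hA.1.nullMeasurableSet]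
  have hAcInv : Inv T μ c A := ⟨hA.1, hAc⟩
  have hAcq : ∀ q, (T^[c * q]) ⁻¹' A =ᵐ[μ] A := by
    intro q
    induction q with
    | zero => rw [mul_zero, Function.iterate_zero, preimage_id]
    | succ q ih =>
      rw [mul_add, mul_one, Function.iterate_add, preimage_comp]
      exact ((hmp.iterate c).quasiMeasurePreserving.preimage_ae_eq ih).trans hAc
  have hcm : c ∣ m := by
    rw [Nat.dvd_iff_mod_eq_zero]
    by_contra hr
    have h1 : (T^[m]) ⁻¹' A =ᵐ[μ] (T^[m % c]) ⁻¹' A := by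
      have h2 : (T^[m]) ⁻¹' A = (T^[m % c]) ⁻¹' ((T^[c * (m / c)]) ⁻¹' A) := by
        rw [← preimage_comp, ← Function.iterate_add, Nat.div_add_mod]
      rw [h2]
      exact (hmp.iterate _).quasiMeasurePreserving.preimage_ae_eq (hAcq _)
    have h3 : (T^[m % c]) ⁻¹' A =ᵐ[μ] A := h1.symm.trans hA.2
    have h4 : (A ∩ (T^[m % c]) ⁻¹' A : Set Ω) =ᵐ[μ] A := by
      have := (EventuallyEq.refl (ae μ) A).inter h3
      rwa [inter_self] at this
    have h5 := hmin (m % c) (by omega) (Nat.mod_lt _ hc1)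
    rw [measure_congr h4] at h5
    exact hA0 h5
  -- almost every point is in exactly one translate
  have hcov : ∀ᵐ x ∂μ, ∃ i < c, T^[i] x ∈ A := cover hT hc1 hAcInv hA0
  have huniq : ∀ᵐ x ∂μ, ∀ i < c, ∀ j < c, i < j → T^[i] x ∈ A → T^[j] x ∈ A → False := by
    rw [ae_all_iff]; intro i
    by_cases hi : i < c
    swap
    · exact Eventually.of_forall fun x h => absurd h hi
    suffices ∀ᵐ x ∂μ, ∀ j < c, i < j → T^[i] x ∈ A → T^[j] x ∈ A → False by
      filter_upwards [this] with x hx _ using hx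
    rw [ae_all_iff]; intro j
    by_cases hj : j < c ∧ i < j
    swap
    · exact Eventually.of_forall fun x h1 h2 => absurd ⟨h1, h2⟩ hj
    have h1 : μ ((T^[i]) ⁻¹' (A ∩ (T^[j - i]) ⁻¹' A)) = 0 := by
      rw [(hmp.iterate i).measure_preimage
        (hA.1.inter ((hmp.iterate _).measurable hA.1)).nullMeasurableSet]
      exact hmin (j - i) (by omega) (by omega)
    have h2 := measure_eq_zero_iff_ae_notMem.mp h1
    filter_upwards [h2] with x hx _ _ hxi hxj
    apply hx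
    refine ⟨hxi, ?_⟩
    show T^[j - i] (T^[i] x) ∈ A
    rw [← Function.iterate_add_apply]
    have : j - i + i = j := by omega
    rw [this]
    exact hxj
  have hper : ∀ᵐ x ∂μ, (T^[c] x ∈ A ↔ x ∈ A) := eventuallyEq_set.mp hAc
  have : NeZero c := ⟨by omega⟩
  -- the factor map
  set F : (Fin c → Bool) → ZMod c := fun b =>
    if h : ∃ i, b i = true then -((Classical.choose h : Fin c) : ℕ) else 0 with hF
  set φ : Ω → ZMod c := fun x => F fun i => decide (T^[i] x ∈ A) with hφ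
  have hφm : Measurable φ := by
    have h1 : Measurable F := measurable_of_finite F
    refine h1.comp (measurable_pi_lambda _ fun i => ?_)
    have h2 : MeasurableSet {x | T^[i] x ∈ A} := (hmp.iterate i).measurable hA.1
    refine measurable_to_bool ?_
    have h3 : (fun x => decide (T^[(i : ℕ)] x ∈ A)) ⁻¹' {true} = {x | T^[(i : ℕ)] x ∈ A} := by
      ext x; simp
    rw [h3]
    exact h2
  have hφv : ∀ᵐ x ∂μ, ∀ i < c, T^[i] x ∈ A → φ x = -(i : ZMod c) := by
    filter_upwards [huniq] with x hx i hi hxi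
    have h1 : ∃ j : Fin c, (fun j : Fin c => decide (T^[j] x ∈ A)) j = true :=
      ⟨⟨i, hi⟩, by simpa using hxi⟩
    have h2 : φ x = -((Classical.choose h1 : Fin c) : ℕ) := by
      rw [hφ]
      simp only [hF]
      rw [dif_pos h1]
    have h3 := Classical.choose_spec h1
    have h4 : T^[(Classical.choose h1 : Fin c)] x ∈ A := by simpa using h3
    have h5 : ((Classical.choose h1 : Fin c) : ℕ) = i := by
      rcases lt_trichotomy ((Classical.choose h1 : Fin c) : ℕ) i with h | h | h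
      · exact (hx _ (Fin.is_lt _) i hi h h4 hxi).elim
      · exact h
      · exact (hx i hi _ (Fin.is_lt _) h hxi h4).elim
    rw [h2, h5]
  have hstep : ∀ᵐ x ∂μ, φ (T x) = φ x + 1 := by
    have hφv' : ∀ᵐ x ∂μ, ∀ i < c, T^[i] (T x) ∈ A → φ (T x) = -(i : ZMod c) :=
      hmp.quasiMeasurePreserving.ae hφv
    filter_upwards [hφv, hφv', hcov, hper] with x h1 h2 h3 h4
    obtain ⟨i, hi, hxi⟩ := h3
    rw [h1 i hi hxi]
    rcases Nat.eq_zero_or_pos i with h0 | h0
    · subst h0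
      have h5 : T^[c - 1] (T x) ∈ A := by
        rw [← Function.iterate_succ_apply]
        have : (c - 1).succ = c := by omega
        rw [this]
        exact h4.mpr hxi
      rw [h2 (c - 1) (by omega) h5, Nat.cast_sub hc1]
      simp
    · have h5 : T^[i - 1] (T x) ∈ A := by
        rw [← Function.iterate_succ_apply]
        have : (i - 1).succ = i := by omega
        rw [this]
        exact hxi
      rw [h2 (i - 1) (by omega) h5, Nat.cast_sub h0]
      push_cast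
      ring
  have hfib : ∀ a : ZMod c, φ ⁻¹' {a} =ᵐ[μ] (T^[(-a).val]) ⁻¹' A := by
    intro a
    rw [eventuallyEq_set]
    filter_upwards [hφv, hcov] with x h1 h2
    rw [mem_preimage, mem_singleton_iff, mem_preimage]
    constructor
    · intro h
      obtain ⟨i, hi, hxi⟩ := h2
      have h3 := h1 i hi hxi
      have h4 : (-a).val = i := by
        rw [← h, h3, neg_neg, ZMod.val_natCast, Nat.mod_eq_of_lt hi]
      rw [h4]
      exact hxi
    · intro h
      rw [h1 _ (ZMod.val_lt _) h, ZMod.natCast_zmod_val, neg_neg]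
  refine ⟨c, φ, hc1, hcm, hφm, hstep, fun a => ?_, fun a B hB => ?_⟩
  · rw [measure_congr (hfib a), (hmp.iterate _).measure_preimage hA.1.nullMeasurableSet]
    exact hA0
  · have h1 : (φ ⁻¹' {a} ∩ B : Set Ω) =ᵐ[μ] ((T^[(-a).val]) ⁻¹' A ∩ B : Set Ω) :=
      (hfib a).inter (EventuallyEq.refl _ _)
    have h2 : (φ ⁻¹' {a} \ B : Set Ω) =ᵐ[μ] ((T^[(-a).val]) ⁻¹' A \ B : Set Ω) :=
      (hfib a).diff (EventuallyEq.refl _ _)
    rw [measure_congr h1, measure_congr h2]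
    exact hatom _ B hB

end Pool.Agent.helper21.BBE
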