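import Mathlib
import Pool.Agent.helper21.BBE.VdW
import Pool.Agent.helper21.BBE.Avg
import Pool.Agent.helper21.BBE.Erg

namespace Pool.Agent.helper21.BBE

open MeasureTheory Filter Set

theorem shift_iter (r : ℕ) (x : ℕ → ℤ) (s : ℕ) : shift^[r] x s = x (s + r) := by
  induction r generalizing x with
  | zero => rfl
  | succ r ih =>
    rw [Function.iterate_succ_apply, ih, shift]
    congr 1

theorem CyclicFactor.dvd {Ω : Type*} [MeasurableSpace Ω] {T : Ω → Ω} {μ : Measure Ω} {c d : ℕ}
    (h : CyclicFactor T μ c) (hd : d ∣ c) : CyclicFactor T μ d := by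
  obtain ⟨φ, hφ, hstep⟩ := h
  refine ⟨fun x => ZMod.castHom hd (ZMod d) (φ x),
    (measurable_from_top (f := fun y => ZMod.castHom hd (ZMod d) y)).comp hφ, ?_⟩
  filter_upwards [hstep] with x hx
  rw [hx, map_add, map_one]

theorem prod_ratio {f : ℕ → ℤ} (hf : IsCM f) {n : ℕ} (hn : 1 ≤ n) (s : ℕ) :
    f (n + s) = f n * ∏ u ∈ Finset.range s, ratio f (n + u) := by
  induction s with
  | zero => simp
  | succ s ih =>
    rw [Finset.prod_range_succ, ← mul_assoc, ← ih, ratio, ← mul_assoc]
    have h1 : f (n + s) * f (n + s) = 1 := by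
      rcases hf.1 (n + s) (by omega) with h | h <;> rw [h] <;> norm_num
    rw [h1, one_mul, add_assoc]

/-- The statement (9): a prime `p` all of whose powers are cyclic factors. -/
theorem prime_factor {f : ℕ → ℤ} (hf : IsCM f) {k l : ℕ} (hl : VDW k l) (hno : ¬ HasBlock f k)
    (μ : Measure (ℕ → ℤ)) [IsProbabilityMeasure μ] (hμ : Ergodic shift μ)
    (hsupp : μ (orbitClosure (ratio f))ᶜ = 0) :
    ∃ p, p.Prime ∧ p * (k - 1) < l ∧ ∀ j, CyclicFactor shift μ (p ^ j) := by
  classical
  by_contra hcon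
  push Not at hcon
  have hk2 : 2 ≤ k := by
    by_contra hk
    apply hno
    refine ⟨1, le_rfl, fun i hi => ?_⟩
    have : i = 0 := by omega
    rw [this]
  choose! e he using hcon
  set M : ℕ := (l - 1) / (k - 1) with hM
  have hMle : ∀ d, 1 ≤ d → (d * (k - 1) < l ↔ d ≤ M) := by
    intro d hd
    have hd' : 1 ≤ d * (k - 1) := Nat.mul_pos hd (by omega)
    rw [hM, Nat.le_div_iff_mul_le (by omega)]
    omega
  set Q : ℕ := ∏ p ∈ (Finset.range (M + 1)).filter Nat.Prime, p ^ e p with hQ
  have hQ0 : Q ≠ 0 := Finset.prod_ne_zero_iff.mpr fun p hp =>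
    pow_ne_zero _ (Finset.mem_filter.mp hp).2.ne_zero
  set D : ℕ := Q * M.factorial with hD
  have hD0 : D ≠ 0 := mul_ne_zero hQ0 (Nat.factorial_ne_zero _)
  have hDpos : 1 ≤ D := Nat.one_le_iff_ne_zero.mpr hD0
  obtain ⟨c, φ, hc1, hcD, hφm, hstep, hφ0, hcyc⟩ := cyclic_structure hμ hDpos
  have hmp := hμ.toMeasurePreserving
  have hcf : CyclicFactor shift μ c := ⟨φ, hφm, hstep⟩
  -- c divides Q
  have hcQ : c ∣ Q := by
    rw [← Nat.factorization_prime_le_iff_dvd (by omega) hQ0]
    intro p hp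
    rcases Nat.lt_or_ge p (M + 1) with hpl | hpl
    · have h1 : c.factorization p < e p := by
        by_contra h
        push Not at h
        apply he p hp ((hMle p hp.one_lt.le).mpr (by omega))
        exact hcf.dvd ((hp.pow_dvd_iff_le_factorization (by omega)).mpr h)
      have h2 : p ^ e p ∣ Q := Finset.dvd_prod_of_mem (fun p => p ^ e p)
        (Finset.mem_filter.mpr ⟨Finset.mem_range.mpr hpl, hp⟩)
      have h3 := (hp.pow_dvd_iff_le_factorization hQ0).mp h2
      omega
    · have h1 : ¬ p ∣ D := by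
        intro h
        rcases (Nat.Prime.dvd_mul hp).mp h with h | h
        · rw [hQ, Prime.dvd_finsetProd_iff hp.prime] at h
          obtain ⟨q, hq, hpq⟩ := h
          rw [Finset.mem_filter, Finset.mem_range] at hq
          have := (Nat.prime_dvd_prime_iff_eq hp hq.2).mp (hp.dvd_of_dvd_pow hpq)
          omega
        · have := (hp.dvd_factorial).mp h
          have := hp.two_le
          omega
      have h2 : ¬ p ∣ c := fun h => h1 (h.trans hcD)
      rw [Nat.factorization_eq_zero_of_not_dvd h2]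
      exact Nat.zero_le _
  have : NeZero c := ⟨by omega⟩
  -- words
  set N : ℕ := c * l with hN
  have hword : ∀ i : ZMod c, ∃ w : Fin N → ℤ, μ (φ ⁻¹' {i} ∩ {x | ∀ s : Fin N, x s = w s}) ≠ 0 := by
    intro i
    by_contra h
    push Not at h
    apply hφ0 i
    have h1 : φ ⁻¹' {i} ⊆ ⋃ w : Fin N → ℤ, (φ ⁻¹' {i} ∩ {x | ∀ s : Fin N, x s = w s}) := by
      intro x hx
      rw [mem_iUnion]
      exact ⟨fun s => x s, hx, fun s => rfl⟩
    exact measure_mono_null h1 (measure_iUnion_null h)
  choose w hw using hword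
  have hcylm : ∀ i : ZMod c, ∀ r : ℕ, MeasurableSet {x : ℕ → ℤ | ∀ s : Fin N, x (s + r) = w i s} := by
    intro i r
    have : {x : ℕ → ℤ | ∀ s : Fin N, x (s + r) = w i s} =
        ⋂ s : Fin N, (fun x : ℕ → ℤ => x (s + r)) ⁻¹' {w i s} := by
      ext x; simp
    rw [this]
    exact MeasurableSet.iInter fun s => (measurable_pi_apply _) (MeasurableSet.singleton _)
  set A : ZMod c → ℕ → Set (ℕ → ℤ) := fun i a =>
    {x | ∃ t : ℕ, ∀ s : Fin N, x (s + (a + D * t)) = w i s} with hA
  have hAm : ∀ i a, MeasurableSet (A i a) := by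
    intro i a
    have : A i a = ⋃ t : ℕ, {x : ℕ → ℤ | ∀ s : Fin N, x (s + (a + D * t)) = w i s} := by
      ext x; simp [hA]
    rw [this]
    exact MeasurableSet.iUnion fun t => hcylm i _
  have hAinv : ∀ i a, Inv shift μ D (A i a) := by
    intro i a
    refine ⟨hAm i a, ?_⟩
    have h1 : (shift^[D]) ⁻¹' (A i a) ⊆ A i a := by
      intro x hx
      obtain ⟨t, ht⟩ := hx
      refine ⟨t + 1, fun s => ?_⟩
      have h2 := ht s
      rw [shift_iter] at h2
      rw [← h2]
      congr 1
      ring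
    refine ae_eq_of_ae_subset_of_measure_ge h1.eventuallyLE ?_
      ((hmp.iterate D).measurable (hAm i a)).nullMeasurableSet (measure_ne_top _ _)
    rw [(hmp.iterate D).measure_preimage (hAm i a).nullMeasurableSet]
  -- the factor map along the orbit
  have hφr : ∀ r : ℕ, ∀ᵐ x ∂μ, φ (shift^[r] x) = φ x + r := by
    intro r
    induction r with
    | zero => exact Eventually.of_forall fun x => by simp
    | succ r ih =>
      have h1 : ∀ᵐ x ∂μ, φ (shift^[r] (shift x)) = φ (shift x) + r :=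
        hmp.quasiMeasurePreserving.ae ih
      filter_upwards [h1, hstep] with x h1 h2
      rw [Function.iterate_succ_apply, h1, h2]
      push_cast
      ring
  have hcont : ∀ (i : ZMod c) (a : ℕ), ∀ᵐ x ∂μ, φ x = i - a → x ∈ A i a := by
    intro i a
    have h0 : μ ((shift^[a]) ⁻¹' (φ ⁻¹' {i} ∩ {x | ∀ s : Fin N, x s = w i s})) ≠ 0 := by
      rw [(hmp.iterate a).measure_preimage]
      · exact hw i
      · have := hcylm i 0
        simp only [add_zero] at this
        exact ((hφm (MeasurableSet.singleton i)).inter this).nullMeasurableSet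
    have h1 : (shift^[a]) ⁻¹' (φ ⁻¹' {i} ∩ {x | ∀ s : Fin N, x s = w i s}) ≤ᵐ[μ]
        (φ ⁻¹' {i - (a : ZMod c)} ∩ A i a : Set (ℕ → ℤ)) := by
      filter_upwards [hφr a] with x hx hxm
      obtain ⟨hx1, hx2⟩ := hxm
      have hx1' : φ (shift^[a] x) = i := hx1
      refine ⟨?_, 0, fun s => ?_⟩
      · show φ x = i - a
        rw [← hx1', hx]; ring
      · have h3 := hx2 s
        rw [shift_iter] at h3
        rw [mul_zero, add_zero]
        exact h3
    have h2 : μ (φ ⁻¹' {i - (a : ZMod c)} ∩ A i a) ≠ 0 := by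
      intro h
      apply h0
      exact nonpos_iff_eq_zero.mp ((measure_mono_ae h1).trans h.le)
    rcases hcyc (i - a) (A i a) (hAinv i a) with h3 | h3
    · exact absurd h3 h2
    · have h4 := measure_eq_zero_iff_ae_notMem.mp h3
      filter_upwards [h4] with x hx hxi
      by_contra hxA
      exact hx ⟨hxi, hxA⟩
  -- a good point
  have hgood : ∀ᵐ x ∂μ, x ∈ orbitClosure (ratio f) ∧ ∀ (i : ZMod c) (a : ℕ), φ x = i - a → x ∈ A i a := by
    have h1 : ∀ᵐ x ∂μ, x ∈ orbitClosure (ratio f) := by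
      have := measure_eq_zero_iff_ae_notMem.mp hsupp
      filter_upwards [this] with x hx
      simpa using hx
    have h2 : ∀ᵐ x ∂μ, ∀ (i : ZMod c) (a : ℕ), φ x = i - a → x ∈ A i a := by
      rw [ae_all_iff]; intro i
      rw [ae_all_iff]; intro a
      exact hcont i a
    exact h1.and h2
  obtain ⟨x, hx, hxA⟩ := hgood.exists
  have hxt : ∀ (i : ZMod c) (a : ℕ), ∃ t : ℕ, φ x = i - a → ∀ s : Fin N, x (s + (a + D * t)) = w i s := by
    intro i a
    by_cases h : φ x = i - a
    · obtain ⟨t, ht⟩ := hxA i a h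
      exact ⟨t, fun _ => ht⟩
    · exact ⟨0, fun h' => absurd h' h⟩
  choose t ht using hxt
  set B : ℕ := ∑ i : ZMod c, ∑ a ∈ Finset.range D, t i a with hB
  have htB : ∀ (i : ZMod c) (a : ℕ), a < D → t i a ≤ B := by
    intro i a ha
    calc t i a ≤ ∑ a ∈ Finset.range D, t i a :=
          Finset.single_le_sum (f := fun a => t i a) (fun _ _ => Nat.zero_le _)
            (Finset.mem_range.mpr ha)
      _ ≤ B := Finset.single_le_sum (f := fun i => ∑ a ∈ Finset.range D, t i a)
            (fun _ _ => Nat.zero_le _) (Finset.mem_univ i)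
  set L : ℕ := N + (D + D * B) with hL
  -- a window of f
  obtain ⟨n0, hn0, hwin⟩ : ∃ n0, 1 ≤ n0 ∧ ∀ s < L, ratio f (n0 + s) = x s := by
    have hopen : IsOpen {y : ℕ → ℤ | ∀ s ∈ Finset.range L, y s = x s} := by
      have : {y : ℕ → ℤ | ∀ s ∈ Finset.range L, y s = x s} =
          ⋂ s ∈ Finset.range L, (fun y : ℕ → ℤ => y s) ⁻¹' {x s} := by
        ext y; simp
      rw [this]
      exact isOpen_biInter_finset fun s _ =>
        (isOpen_discrete _).preimage (continuous_apply s)
    have h1 := mem_closure_iff.mp hx _ hopen (fun s _ => rfl)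
    obtain ⟨y, hy, n, hn, hyn⟩ := h1
    refine ⟨n, hn, fun s hs => ?_⟩
    have := hy s (Finset.mem_range.mpr hs)
    rw [hyn] at this
    exact this
  set i : ZMod c := φ x - n0 with hi
  set wz : ℕ → ℤ := fun s => if h : s < N then w i ⟨s, h⟩ else 1 with hwz
  set P : ℕ → ℤ := fun s => ∏ u ∈ Finset.range s, wz u with hP
  obtain ⟨i1, d, hd, hid, hcol⟩ := hl fun j => decide (P (c * j) = 1)
  have hdl : d ≤ M := by
    rw [← hMle d hd, mul_comm]
    omega
  -- choose a
  obtain ⟨a, haD, hdvd⟩ : ∃ a < D, D ∣ n0 + a + c * i1 := by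
    refine ⟨((D - 1) * (n0 + c * i1)) % D, Nat.mod_lt _ hDpos, ?_⟩
    rw [← Nat.modEq_zero_iff_dvd]
    have h1 : n0 + ((D - 1) * (n0 + c * i1)) % D + c * i1 ≡
        n0 + ((D - 1) * (n0 + c * i1)) + c * i1 [MOD D] :=
      Nat.ModEq.add_right _ (Nat.ModEq.add_left _ (Nat.mod_modEq _ _))
    refine h1.trans ?_
    have h2 : n0 + ((D - 1) * (n0 + c * i1)) + c * i1 = D * (n0 + c * i1) := by
      have h3 : D * (n0 + c * i1) = (D - 1 + 1) * (n0 + c * i1) := by
        congr 1; omega
      rw [h3]; ring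
    rw [h2, Nat.modEq_zero_iff_dvd]
    exact dvd_mul_right _ _
  have hia : φ x = i - a := by
    have h1 : c ∣ n0 + a + c * i1 := hcD.trans hdvd
    have h2 : c ∣ n0 + a := (Nat.dvd_add_left (dvd_mul_right c i1)).mp h1
    have h3 : ((n0 + a : ℕ) : ZMod c) = 0 := (ZMod.natCast_eq_zero_iff _ _).mpr h2
    push_cast at h3
    rw [hi]
    have h4 : (n0 : ZMod c) = -a := eq_neg_of_add_eq_zero_left h3
    rw [h4]
    ring
  have hta := ht i a hia
  have hcd : c * d ∣ D := mul_dvd_mul hcQ (Nat.dvd_factorial hd hdl)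
  set n : ℕ := n0 + (a + D * t i a) with hn
  have hcd2 : c * d ∣ n + c * i1 := by
    have h1 : n + c * i1 = (n0 + a + c * i1) + D * t i a := by rw [hn]; ring
    rw [h1]
    exact dvd_add (hcd.trans hdvd) (hcd.trans (dvd_mul_right _ _))
  obtain ⟨m, hm⟩ := hcd2
  have hn1 : 1 ≤ n := by omega
  have hmpos : 1 ≤ m := by
    rcases Nat.eq_zero_or_pos m with h0 | h0
    · rw [h0, mul_zero] at hm; omega
    · exact h0
  have hcdpos : 1 ≤ c * d := Nat.mul_pos hc1 hd
  have hidx : ∀ j < k, c * (i1 + j * d) < N := by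
    intro j hj
    have h2 : i1 + j * d < l := by
      have : j * d ≤ (k - 1) * d := Nat.mul_le_mul_right _ (by omega)
      omega
    exact Nat.mul_lt_mul_of_pos_left h2 hc1
  have hocc : ∀ s < N, ratio f (n + s) = wz s := by
    intro s hs
    have h2 := hta ⟨s, hs⟩
    have h3 : wz s = w i ⟨s, hs⟩ := by rw [hwz]; simp only; rw [dif_pos hs]
    rw [h3, ← h2]
    have h4 : D * t i a ≤ D * B := Nat.mul_le_mul_left _ (htB i a haD)
    have h5 := hwin (s + (a + D * t i a)) (by omega)
    rw [← h5, hn]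
    congr 1
    ring
  have key : ∀ j < k, f (c * d * (m + j)) = f n * P (c * (i1 + j * d)) := by
    intro j hj
    have h1 : c * d * (m + j) = n + c * (i1 + j * d) := by
      rw [mul_add, ← hm]; ring
    rw [h1, prod_ratio hf hn1, hP]
    congr 1
    refine Finset.prod_congr rfl fun u hu => hocc u ?_
    have := hidx j hj
    rw [Finset.mem_range] at hu
    omega
  refine hno (block_of_dilate hf hcdpos hmpos fun j hj => ?_)
  have h0k : 0 < k := by omega
  have h0 := key 0 h0k
  simp only [add_zero, zero_mul] at h0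
  rw [key j hj, h0]
  have hval : ∀ j < k, P (c * (i1 + j * d)) = 1 ∨ P (c * (i1 + j * d)) = -1 := by
    intro j hj
    have h1 := hf.1 (c * d * (m + j)) (Nat.mul_pos hcdpos (by omega))
    rw [key j hj] at h1
    rcases hf.1 n hn1 with h2 | h2 <;> rw [h2] at h1 <;> rcases h1 with h1 | h1
    · left; linarith
    · right; linarith
    · right; linarith
    · left; linarith
  have h1 := hcol j hj
  have h2 := hval j hj
  have h3 := hval 0 h0k
  simp only [zero_mul, add_zero] at h3
  rw [decide_eq_decide] at h1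
  congr 1
  rcases h2 with h2 | h2 <;> rcases h3 with h3 | h3
  · rw [h2, h3]
  · rw [h2, h3] at h1; norm_num at h1
  · rw [h2, h3] at h1; norm_num at h1
  · rw [h2, h3]

end Pool.Agent.helper21.BBE
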