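import Mathlib
import Pool.Agent.helper21.BBE.Main

namespace Pool.Agent.helper21.BBE

open Filter Set

/-- The combinatorial core: returns in all residue classes give a block. -/
theorem block_of_returns {f : ℕ → ℤ} (hf : IsCM f) {k l : ℕ} (hl : VDW k l) (hk2 : 2 ≤ k)
    {x : ℕ → ℤ} (hx : x ∈ orbitClosure (ratio f)) {c D : ℕ} (hc1 : 1 ≤ c) (hDpos : 1 ≤ D)
    (hcD : c * ((l - 1) / (k - 1)).factorial ∣ D) (s0 : ZMod c) (w : ZMod c → ℕ → ℤ)
    (h : ∀ (i : ZMod c) (a : ℕ), s0 = i - a → ∃ t, ∀ u < c * l, x (u + (a + D * t)) = w i u) :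
    HasBlock f k := by
  classical
  have : NeZero c := ⟨by omega⟩
  set M : ℕ := (l - 1) / (k - 1) with hM
  set N : ℕ := c * l with hN
  have hMle : ∀ d, 1 ≤ d → d * (k - 1) < l → d ≤ M := by
    intro d hd hdl
    rw [hM, Nat.le_div_iff_mul_le (by omega)]
    omega
  have hxt : ∀ (i : ZMod c) (a : ℕ), ∃ t : ℕ, s0 = i - a →
      ∀ u < N, x (u + (a + D * t)) = w i u := by
    intro i a
    by_cases h1 : s0 = i - a
    · obtain ⟨t, ht⟩ := h i a h1
      exact ⟨t, fun _ => ht⟩
    · exact ⟨0, fun h' => absurd h' h1⟩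
  choose t ht using hxt
  set B : ℕ := ∑ i : ZMod c, ∑ a ∈ Finset.range D, t i a with hB
  have htB : ∀ (i : ZMod c) (a : ℕ), a < D → t i a ≤ B := by
    intro i a ha
    calc t i a ≤ ∑ a ∈ Finset.range D, t i a :=
          Finset.single_le_sum (f := fun a => t i a) (fun _ _ => Nat.zero_le _)
            (Finset.mem_range.mpr ha)
      _ ≤ B := Finset.single_le_sum (f := fun i => ∑ a ∈ Finset.range D, t i a)
            (fun _ _ => Nat.zero_le _) (Finset.mem_univ i)
  set L : ℕ := N + (D + D * B) with hL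
  -- a window of f
  obtain ⟨n0, hn0, hwin⟩ : ∃ n0, 1 ≤ n0 ∧ ∀ s < L, ratio f (n0 + s) = x s := by
    have hopen : IsOpen {y : ℕ → ℤ | ∀ s ∈ Finset.range L, y s = x s} := by
      have : {y : ℕ → ℤ | ∀ s ∈ Finset.range L, y s = x s} =
          ⋂ s ∈ Finset.range L, (fun y : ℕ → ℤ => y s) ⁻¹' {x s} := by
        ext y; simp
      rw [this]
      exact isOpen_biInter_finset fun s _ =>
        (isOpen_discrete _).preimage (continuous_apply s)
    have h1 := mem_closure_iff.mp hx _ hopen (fun s _ => rfl)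
    obtain ⟨y, hy, n, hn, hyn⟩ := h1
    refine ⟨n, hn, fun s hs => ?_⟩
    have := hy s (Finset.mem_range.mpr hs)
    rw [hyn] at this
    exact this
  set i : ZMod c := s0 - n0 with hi
  set P : ℕ → ℤ := fun s => ∏ u ∈ Finset.range s, w i u with hP
  obtain ⟨i1, d, hd, hid, hcol⟩ := hl fun j => decide (P (c * j) = 1)
  have hdl : d ≤ M := hMle d hd (by rw [mul_comm]; omega)
  -- choose a
  obtain ⟨a, haD, hdvd⟩ : ∃ a < D, D ∣ n0 + a + c * i1 := by
    refine ⟨((D - 1) * (n0 + c * i1)) % D, Nat.mod_lt _ hDpos, ?_⟩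
    rw [← Nat.modEq_zero_iff_dvd]
    have h1 : n0 + ((D - 1) * (n0 + c * i1)) % D + c * i1 ≡
        n0 + ((D - 1) * (n0 + c * i1)) + c * i1 [MOD D] :=
      Nat.ModEq.add_right _ (Nat.ModEq.add_left _ (Nat.mod_modEq _ _))
    refine h1.trans ?_
    have h2 : n0 + ((D - 1) * (n0 + c * i1)) + c * i1 = D * (n0 + c * i1) := by
      have h3 : D * (n0 + c * i1) = (D - 1 + 1) * (n0 + c * i1) := by
        congr 1; omega
      rw [h3]; ring
    rw [h2, Nat.modEq_zero_iff_dvd]
    exact dvd_mul_right _ _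
  have hcD' : c ∣ D := (dvd_mul_right _ _).trans hcD
  have hia : s0 = i - a := by
    have h1 : c ∣ n0 + a + c * i1 := hcD'.trans hdvd
    have h2 : c ∣ n0 + a := (Nat.dvd_add_left (dvd_mul_right c i1)).mp h1
    have h3 : ((n0 + a : ℕ) : ZMod c) = 0 := (ZMod.natCast_eq_zero_iff _ _).mpr h2
    push_cast at h3
    rw [hi]
    have h4 : (n0 : ZMod c) = -a := eq_neg_of_add_eq_zero_left h3
    rw [h4]
    ring
  have hta := ht i a hia
  have hcd : c * d ∣ D := (mul_dvd_mul_left c (Nat.dvd_factorial hd hdl)).trans hcD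
  set n : ℕ := n0 + (a + D * t i a) with hn
  have hcd2 : c * d ∣ n + c * i1 := by
    have h1 : n + c * i1 = (n0 + a + c * i1) + D * t i a := by rw [hn]; ring
    rw [h1]
    exact dvd_add (hcd.trans hdvd) (hcd.trans (dvd_mul_right _ _))
  obtain ⟨m, hm⟩ := hcd2
  have hn1 : 1 ≤ n := by omega
  have hmpos : 1 ≤ m := by
    rcases Nat.eq_zero_or_pos m with h0 | h0
    · rw [h0, mul_zero] at hm; omega
    · exact h0
  have hcdpos : 1 ≤ c * d := Nat.mul_pos hc1 hd
  have hidx : ∀ j < k, c * (i1 + j * d) < N := by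
    intro j hj
    have h2 : i1 + j * d < l := by
      have : j * d ≤ (k - 1) * d := Nat.mul_le_mul_right _ (by omega)
      omega
    exact Nat.mul_lt_mul_of_pos_left h2 hc1
  have hocc : ∀ s < N, ratio f (n + s) = w i s := by
    intro s hs
    have h2 := hta s hs
    rw [← h2]
    have h4 : D * t i a ≤ D * B := Nat.mul_le_mul_left _ (htB i a haD)
    have h5 := hwin (s + (a + D * t i a)) (by omega)
    rw [← h5, hn]
    congr 1
    ring
  have key : ∀ j < k, f (c * d * (m + j)) = f n * P (c * (i1 + j * d)) := by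
    intro j hj
    have h1 : c * d * (m + j) = n + c * (i1 + j * d) := by
      rw [mul_add, ← hm]; ring
    rw [h1, prod_ratio hf hn1, hP]
    congr 1
    refine Finset.prod_congr rfl fun u hu => hocc u ?_
    have := hidx j hj
    rw [Finset.mem_range] at hu
    omega
  refine block_of_dilate hf hcdpos hmpos fun j hj => ?_
  have h0k : 0 < k := by omega
  have h0 := key 0 h0k
  simp only [add_zero, zero_mul] at h0
  rw [key j hj, h0]
  have hval : ∀ j < k, P (c * (i1 + j * d)) = 1 ∨ P (c * (i1 + j * d)) = -1 := by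
    intro j hj
    have h1 := hf.1 (c * d * (m + j)) (Nat.mul_pos hcdpos (by omega))
    rw [key j hj] at h1
    rcases hf.1 n hn1 with h2 | h2 <;> rw [h2] at h1 <;> rcases h1 with h1 | h1
    · left; linarith
    · right; linarith
    · right; linarith
    · left; linarith
  have h1 := hcol j hj
  have h2 := hval j hj
  have h3 := hval 0 h0k
  simp only [zero_mul, add_zero] at h3
  rw [decide_eq_decide] at h1
  congr 1
  rcases h2 with h2 | h2 <;> rcases h3 with h3 | h3
  · rw [h2, h3]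
  · rw [h2, h3] at h1; norm_num at h1
  · rw [h2, h3] at h1; norm_num at h1
  · rw [h2, h3]

/-- From a bound for the cyclic factors at the primes `p` with `p (k - 1) < l`: a modulus `D` for
which every `c ∣ D` in a divisor closed set without large powers satisfies `c M! ∣ D`. -/
theorem exists_modulus {k l : ℕ} (hk2 : 2 ≤ k) (S : ℕ → Prop) (hS : ∀ c d, S c → d ∣ c → S d)
    (e : ℕ → ℕ) (he : ∀ p, p.Prime → p * (k - 1) < l → ¬ S (p ^ e p)) :
    ∃ D, 1 ≤ D ∧ ∀ c, S c → c ∣ D → c * ((l - 1) / (k - 1)).factorial ∣ D := by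
  classical
  set M : ℕ := (l - 1) / (k - 1) with hM
  have hMle : ∀ d, 1 ≤ d → (d * (k - 1) < l ↔ d ≤ M) := by
    intro d hd
    have hd' : 1 ≤ d * (k - 1) := Nat.mul_pos hd (by omega)
    rw [hM, Nat.le_div_iff_mul_le (by omega)]
    omega
  set Q : ℕ := ∏ p ∈ (Finset.range (M + 1)).filter Nat.Prime, p ^ e p with hQ
  have hQ0 : Q ≠ 0 := Finset.prod_ne_zero_iff.mpr fun p hp =>
    pow_ne_zero _ (Finset.mem_filter.mp hp).2.ne_zero
  have hD0 : Q * M.factorial ≠ 0 := mul_ne_zero hQ0 (Nat.factorial_ne_zero _)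
  refine ⟨Q * M.factorial, Nat.one_le_iff_ne_zero.mpr hD0, fun c hSc hcD => ?_⟩
  apply mul_dvd_mul_right
  have hc0 : c ≠ 0 := fun h => hD0 (Nat.eq_zero_of_zero_dvd (h ▸ hcD))
  rw [← Nat.factorization_prime_le_iff_dvd hc0 hQ0]
  intro p hp
  rcases Nat.lt_or_ge p (M + 1) with hpl | hpl
  · have h1 : c.factorization p < e p := by
      by_contra h
      push Not at h
      apply he p hp ((hMle p hp.one_lt.le).mpr (by omega))
      exact hS c _ hSc ((hp.pow_dvd_iff_le_factorization hc0).mpr h)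
    have h2 : p ^ e p ∣ Q := Finset.dvd_prod_of_mem (fun p => p ^ e p)
      (Finset.mem_filter.mpr ⟨Finset.mem_range.mpr hpl, hp⟩)
    have h3 := (hp.pow_dvd_iff_le_factorization hQ0).mp h2
    omega
  · have h1 : ¬ p ∣ Q * M.factorial := by
      intro h
      rcases (Nat.Prime.dvd_mul hp).mp h with h | h
      · rw [hQ, Prime.dvd_finsetProd_iff hp.prime] at h
        obtain ⟨q, hq, hpq⟩ := h
        rw [Finset.mem_filter, Finset.mem_range] at hq
        have := (Nat.prime_dvd_prime_iff_eq hp hq.2).mp (hp.dvd_of_dvd_pow hpq)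
        omega
      · have := (hp.dvd_factorial).mp h
        have := hp.two_le
        omega
    have h2 : ¬ p ∣ c := fun h => h1 (h.trans hcD)
    rw [Nat.factorization_eq_zero_of_not_dvd h2]
    exact Nat.zero_le _

/-- `M` is a minimal closed set of the map `T`. -/
def IsMin {X : Type*} [TopologicalSpace X] (T : X → X) (M : Set X) : Prop :=
  M.Nonempty ∧ IsClosed M ∧ MapsTo T M M ∧
    ∀ K ⊆ M, K.Nonempty → IsClosed K → MapsTo T K K → K = M

/-- The rotation of `ℤ/m` is a topological factor of `(M, T)`. -/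
def TopFactor {X : Type*} [TopologicalSpace X] (T : X → X) (M : Set X) (m : ℕ) : Prop :=
  ∃ φ : X → ZMod m, (∀ x ∈ M, ∃ U, IsOpen U ∧ x ∈ U ∧ ∀ y ∈ U ∩ M, φ y = φ x) ∧
    ∀ x ∈ M, φ (T x) = φ x + 1

theorem TopFactor.dvd {X : Type*} [TopologicalSpace X] {T : X → X} {M : Set X} {c d : ℕ}
    (h : TopFactor T M c) (hd : d ∣ c) : TopFactor T M d := by
  obtain ⟨φ, hφ, hstep⟩ := h
  refine ⟨fun x => ZMod.castHom hd (ZMod d) (φ x), fun x hx => ?_, fun x hx => ?_⟩
  · obtain ⟨U, hU, hxU, hc⟩ := hφ x hx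
    exact ⟨U, hU, hxU, fun y hy => congrArg _ (hc y hy)⟩
  · show ZMod.castHom hd (ZMod d) (φ (T x)) = ZMod.castHom hd (ZMod d) (φ x) + 1
    rw [hstep x hx, map_add, map_one]

end Pool.Agent.helper21.BBE
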