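import Mathlib
import Pool.Agent.helper21.BBE.Main

namespace Pool.Agent.helper21.BBE

open MeasureTheory Filter Set

theorem measurable_shift : Measurable shift :=
  measurable_pi_lambda _ fun i => measurable_pi_apply (i + 1)

/-- Every power of the shift is ergodic for the point mass at a constant sequence. -/
theorem ergodic_dirac (c : ℤ) (m : ℕ) :
    Ergodic (shift^[m]) (Measure.dirac (fun _ : ℕ => c)) := by
  have hfix : shift^[m] (fun _ : ℕ => c) = fun _ => c := by
    funext s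
    rw [shift_iter]
  refine ⟨⟨measurable_shift.iterate m, ?_⟩, ⟨fun s hs _ => ?_⟩⟩
  · rw [Measure.map_dirac' (measurable_shift.iterate m), hfix]
  · rw [eventuallyConst_set', ae_dirac_eq]
    by_cases h : (fun _ : ℕ => c) ∈ s
    · right
      rw [eventuallyEq_set]
      show ∀ᶠ x in pure _, _
      rw [eventually_pure]
      simp [h]
    · left
      rw [eventuallyEq_set]
      show ∀ᶠ x in pure _, _
      rw [eventually_pure]
      simp [h]

/-- (1) implies that the orbit closure contains a constant sequence. -/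
theorem const_mem_of_blocks {f : ℕ → ℤ} (hf : IsCM f) (h : ∀ k, HasBlock f k) :
    ∃ c : ℤ, (fun _ : ℕ => c) ∈ orbitClosure f := by
  obtain ⟨c, hc⟩ : ∃ c : ℤ, ∀ k, ∃ n, 1 ≤ n ∧ ∀ i < k, f (n + i) = c := by
    by_cases h1 : ∀ k, ∃ n, 1 ≤ n ∧ ∀ i < k, f (n + i) = 1
    · exact ⟨1, h1⟩
    · push Not at h1
      obtain ⟨k0, hk0⟩ := h1
      refine ⟨-1, fun k => ?_⟩
      obtain ⟨n, hn, hb⟩ := h (k + k0 + 1)
      have h2 : f n = -1 := by
        rcases hf.1 n hn with h3 | h3
        · obtain ⟨i, hi, hne⟩ := hk0 n hn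
          exact absurd ((hb i (by omega)).trans h3) hne
        · exact h3
      exact ⟨n, hn, fun i hi => (hb i (by omega)).trans h2⟩
  refine ⟨c, ?_⟩
  rw [orbitClosure, mem_closure_iff]
  intro o ho hco
  rw [isOpen_pi_iff] at ho
  obtain ⟨I, u, hu, hsub⟩ := ho _ hco
  obtain ⟨n, hn, hb⟩ := hc (I.sup id + 1)
  refine ⟨fun i => f (n + i), hsub ?_, n, hn, rfl⟩
  intro i hi
  have h1 : i < I.sup id + 1 := Nat.lt_succ_of_le (Finset.le_sup (f := id) hi)
  show f (n + i) ∈ u i
  rw [hb i h1]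
  exact (hu i hi).2

/-- (1) implies that the orbit closure carries a totally ergodic measure. -/
theorem totally_ergodic_of_blocks {f : ℕ → ℤ} (hf : IsCM f) (h : ∀ k, HasBlock f k) :
    ∃ μ : Measure (ℕ → ℤ), IsProbabilityMeasure μ ∧ μ (orbitClosure f)ᶜ = 0 ∧
      ∀ m, 1 ≤ m → Ergodic (shift^[m]) μ := by
  obtain ⟨c, hmem⟩ := const_mem_of_blocks hf h
  refine ⟨Measure.dirac (fun _ => c), inferInstance, ?_, fun m _ => ergodic_dirac c m⟩
  rw [measure_eq_zero_iff_ae_notMem, ae_dirac_eq]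
  show ∀ᶠ x in pure _, _
  rw [eventually_pure]
  simp [hmem]

theorem iter_factor {Ω : Type*} [MeasurableSpace Ω] {μ : Measure Ω} {T : Ω → Ω}
    (hmp : MeasurePreserving T μ μ) {c : ℕ} {φ : Ω → ZMod c}
    (hstep : ∀ᵐ x ∂μ, φ (T x) = φ x + 1) (r : ℕ) : ∀ᵐ x ∂μ, φ (T^[r] x) = φ x + r := by
  induction r with
  | zero => exact Eventually.of_forall fun x => by simp
  | succ r ih =>
    have h1 : ∀ᵐ x ∂μ, φ (T^[r] (T x)) = φ (T x) + r := hmp.quasiMeasurePreserving.ae ih
    filter_upwards [h1, hstep] with x h1 h2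
    rw [Function.iterate_succ_apply, h1, h2]
    push_cast
    ring

/-- A system whose `m`-th power is ergodic has no cyclic factor of order `m ≥ 2`. -/
theorem not_cyclicFactor {Ω : Type*} [MeasurableSpace Ω] {μ : Measure Ω} [IsProbabilityMeasure μ]
    {T : Ω → Ω} {m : ℕ} (hm : 2 ≤ m) (hT : MeasurePreserving T μ μ) (h : Ergodic (T^[m]) μ) :
    ¬ CyclicFactor T μ m := by
  rintro ⟨φ, hφ, hstep⟩
  have : NeZero m := ⟨by omega⟩
  have : Fact (1 < m) := ⟨by omega⟩
  have hr := fun r => iter_factor hT hstep r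
  have hinv : (T^[m]) ⁻¹' (φ ⁻¹' {0}) =ᵐ[μ] φ ⁻¹' {0} := by
    rw [eventuallyEq_set]
    filter_upwards [hr m] with x hx
    rw [mem_preimage, mem_preimage, mem_preimage, mem_singleton_iff, mem_singleton_iff, hx]
    simp
  rcases h.quasiErgodic.ae_empty_or_univ₀ (hφ (MeasurableSet.singleton 0)).nullMeasurableSet hinv
    with h1 | h1
  · -- φ is almost never 0
    have h2 : ∀ᵐ x ∂μ, φ x ≠ 0 := by
      rw [eventuallyEq_set] at h1
      filter_upwards [h1] with x hx h0
      exact (hx.mp h0).elim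
    have h3 : ∀ᵐ x ∂μ, ∀ r : ℕ, φ (T^[r] x) ≠ 0 := by
      rw [ae_all_iff]
      intro r
      exact (hT.iterate r).quasiMeasurePreserving.ae h2
    have h4 : ∀ᵐ x ∂μ, ∀ r : ℕ, φ (T^[r] x) = φ x + r := ae_all_iff.mpr hr
    obtain ⟨x, hx3, hx4⟩ := (h3.and h4).exists
    apply hx3 (-φ x).val
    rw [hx4, ZMod.natCast_zmod_val, add_neg_cancel]
  · have h2 : ∀ᵐ x ∂μ, φ x = 0 := by
      rw [eventuallyEq_set] at h1
      filter_upwards [h1] with x hx
      exact hx.mpr (mem_univ x)
    have h3 : ∀ᵐ x ∂μ, φ (T x) = 0 := hT.quasiMeasurePreserving.ae h2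
    obtain ⟨x, ⟨hx2, hx3⟩, hx4⟩ := ((h2.and h3).and hstep).exists
    rw [hx2, hx3, zero_add] at hx4
    exact zero_ne_one hx4

/-- The map `x ↦ (x_i x_{i+1})`. -/
def rmap (x : ℕ → ℤ) : ℕ → ℤ := fun i => x i * x (i + 1)

theorem continuous_rmap : Continuous rmap :=
  continuous_pi fun i => (continuous_apply i).mul (continuous_apply (i + 1))

theorem measurable_rmap : Measurable rmap :=
  measurable_pi_lambda _ fun i => (measurable_pi_apply i).mul (measurable_pi_apply (i + 1))

theorem rmap_mem {f : ℕ → ℤ} {x : ℕ → ℤ} (hx : x ∈ orbitClosure f) :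
    rmap x ∈ orbitClosure (ratio f) := by
  have h1 : MapsTo rmap {x | ∃ n, 1 ≤ n ∧ x = fun i => f (n + i)}
      {x | ∃ n, 1 ≤ n ∧ x = fun i => ratio f (n + i)} := by
    rintro x ⟨n, hn, rfl⟩
    exact ⟨n, hn, rfl⟩
  exact map_mem_closure continuous_rmap hx h1

theorem rmap_shift (m : ℕ) : Function.Semiconj rmap (shift^[m]) (shift^[m]) := by
  intro x
  funext s
  rw [shift_iter]
  show shift^[m] x s * shift^[m] x (s + 1) = x (s + m) * x (s + m + 1)
  rw [shift_iter, shift_iter]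
  congr 2
  omega

/-- The push-forward of an ergodic measure to the orbit closure of `f(n) f(n+1)`. -/
theorem push {f : ℕ → ℤ} {μ : Measure (ℕ → ℤ)} [IsProbabilityMeasure μ]
    (hsupp : μ (orbitClosure f)ᶜ = 0) {m : ℕ} (hm : Ergodic (shift^[m]) μ) :
    Ergodic (shift^[m]) (μ.map rmap) ∧ (μ.map rmap) (orbitClosure (ratio f))ᶜ = 0 := by
  constructor
  · exact MeasurePreserving.ergodic_of_ergodic_semiconj ⟨measurable_rmap, rfl⟩ hm
      (measurable_shift.iterate m) (rmap_shift m)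
  · have hcl : MeasurableSet (orbitClosure (ratio f))ᶜ := isClosed_closure.measurableSet.compl
    rw [Measure.map_apply measurable_rmap hcl]
    refine measure_mono_null (fun x hx => ?_) hsupp
    intro hx2
    exact hx (rmap_mem hx2)

theorem CyclicFactor.of_push {μ : Measure (ℕ → ℤ)} {m : ℕ}
    (h : CyclicFactor shift (μ.map rmap) m) : CyclicFactor shift μ m := by
  obtain ⟨φ, hφ, hstep⟩ := h
  refine ⟨φ ∘ rmap, hφ.comp measurable_rmap, ?_⟩
  have h1 := ae_of_ae_map measurable_rmap.aemeasurable hstep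
  filter_upwards [h1] with x hx
  show φ (rmap (shift x)) = φ (rmap x) + 1
  rw [← hx]
  have h2 := rmap_shift 1 x
  rw [Function.iterate_one] at h2
  rw [h2]

/-- Blocks of both signs beyond every bound. -/
theorem signs_of_blocks {f : ℕ → ℤ} (hf : IsCM f) {a : ℕ} (ha : 1 ≤ a) (hfa : f a = -1)
    (h : ∀ k, HasBlock f k) (k N : ℕ) {s : ℤ} (hs : s = 1 ∨ s = -1) :
    ∃ n, N ≤ n ∧ 1 ≤ n ∧ ∀ i < k, f (n + i) = s := by
  obtain ⟨n, hn, hb⟩ := h (a * (N + k + 1) + 1)
  have hNk : N + k + 1 ≤ a * (N + k + 1) := Nat.le_mul_of_pos_left _ ha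
  by_cases hc : f n = s
  · exact ⟨n + N, by omega, by omega, fun i hi => by
      rw [add_assoc]
      exact (hb (N + i) (by omega)).trans hc⟩
  · have hc' : f n = -s := by
      rcases hf.1 n hn with h1 | h1 <;> rcases hs with h2 | h2
      · exact absurd (h1.trans h2.symm) hc
      · rw [h1, h2]; norm_num
      · rw [h1, h2]
      · exact absurd (h1.trans h2.symm) hc
    obtain ⟨t, h1, h2⟩ : ∃ t, a * t ≤ n ∧ n < a * t + a := by
      refine ⟨n / a, Nat.mul_div_le n a, ?_⟩
      have := Nat.lt_mul_div_succ n ha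
      rw [mul_add, mul_one] at this
      exact this
    refine ⟨t + 1 + N, by omega, by omega, fun i hi => ?_⟩
    have h3 : a * (t + 1 + N + i) = a * (t) + (a + a * (N + i)) := by ring
    have h4 : a * (N + k + 1) = a * (N + i) + a * (k - i) + a := by
      have : N + k + 1 = (N + i) + (k - i) + 1 := by omega
      rw [this]; ring
    have h5 : a ≤ a * (k - i) := Nat.le_mul_of_pos_right _ (by omega)
    have h6 := hb (a * (t + 1 + N + i) - n) (by omega)
    have h7 : n + (a * (t + 1 + N + i) - n) = a * (t + 1 + N + i) := by omega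
    rw [h7, hf.2 a _ ha (by omega), hfa, hc'] at h6
    linarith

end Pool.Agent.helper21.BBE
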