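import Mathlib
import Pool.Agent.helper21.BBE.Core
import Pool.Agent.helper21.BBE.Dirac

namespace Pool.Agent.helper21.BBE

open Filter Set

variable {X : Type*} [TopologicalSpace X] {T : X → X}

omit [TopologicalSpace X] in
theorem mapsTo_iter {M : Set X} (h : MapsTo T M M) (i : ℕ) : MapsTo (T^[i]) M M := by
  induction i with
  | zero => exact mapsTo_id _
  | succ i ih => rw [Function.iterate_succ]; exact ih.comp h

/-- A nonempty compact closed invariant set contains a minimal one. -/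
theorem exists_isMin [T2Space X] {M : Set X} (hM : IsCompact M) (hne : M.Nonempty)
    (hinv : MapsTo T M M) : ∃ A ⊆ M, IsMin T A := by
  set S : Set (Set X) := {K | K ⊆ M ∧ K.Nonempty ∧ IsClosed K ∧ MapsTo T K K} with hS
  have hMS : M ∈ S := ⟨subset_rfl, hne, hM.isClosed, hinv⟩
  obtain ⟨A, hAM, hA⟩ := zorn_superset_nonempty S (by
    intro c hc hchain hcne
    refine ⟨⋂₀ c, ⟨?_, ?_, ?_, ?_⟩, fun s hs => sInter_subset_of_mem hs⟩
    · obtain ⟨K, hK⟩ := hcne
      exact (sInter_subset_of_mem hK).trans (hc hK).1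
    · have : Nonempty c := hcne.to_subtype
      rw [sInter_eq_iInter]
      apply IsCompact.nonempty_iInter_of_directed_nonempty_isCompact_isClosed
      · rintro ⟨a, ha⟩ ⟨b, hb⟩
        rcases hchain.total ha hb with h | h
        · exact ⟨⟨a, ha⟩, subset_rfl, h⟩
        · exact ⟨⟨b, hb⟩, h, subset_rfl⟩
      · exact fun K => (hc K.2).2.1
      · exact fun K => hM.of_isClosed_subset (hc K.2).2.2.1 (hc K.2).1
      · exact fun K => (hc K.2).2.2.1
    · exact isClosed_sInter fun K hK => (hc hK).2.2.1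
    · intro x hx
      rw [mem_sInter] at hx ⊢
      exact fun K hK => (hc hK).2.2.2 (hx K hK)) M hMS
  refine ⟨A, hAM, hA.prop.2.1, hA.prop.2.2.1, hA.prop.2.2.2, fun K hKA hKne hKcl hKinv => ?_⟩
  exact subset_antisymm hKA (hA.le_of_le ⟨hKA.trans hAM, hKne, hKcl, hKinv⟩ hKA)

theorem IsMin.eq_of_inter {A B : Set X} (hA : IsMin T A) (hB : IsMin T B)
    (h : (A ∩ B).Nonempty) : A = B := by
  have h1 : A ∩ B = A := hA.2.2.2 _ inter_subset_left h (hA.2.1.inter hB.2.1)
    (hA.2.2.1.inter_inter hB.2.2.1)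
  have h2 : A ∩ B = B := hB.2.2.2 _ inter_subset_right h (hA.2.1.inter hB.2.1)
    (hA.2.2.1.inter_inter hB.2.2.1)
  rw [← h1, h2]

/-- The cyclic structure of a minimal set under a power of the map. -/
theorem top_cyclic [T2Space X] (hT : Continuous T) {M : Set X} (hM : IsCompact M)
    (hmin : IsMin T M) {m : ℕ} (hm : 1 ≤ m) :
    ∃ (c : ℕ) (φ : X → ZMod c), 1 ≤ c ∧ c ∣ m ∧
      (∀ x ∈ M, ∃ U, IsOpen U ∧ x ∈ U ∧ ∀ y ∈ U ∩ M, φ y = φ x) ∧
      (∀ x ∈ M, φ (T x) = φ x + 1) ∧ ∀ i, IsMin (T^[m]) (M ∩ φ ⁻¹' {i}) := by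
  classical
  obtain ⟨A, hAM, hA⟩ := exists_isMin (T := T^[m]) hM hmin.1 (mapsTo_iter hmin.2.2.1 m)
  have hAc : IsCompact A := hM.of_isClosed_subset hA.2.1 hAM
  have hTi : ∀ i, Continuous (T^[i]) := fun i => hT.iterate i
  set B : ℕ → Set X := fun i => T^[i] '' A with hB
  have hB0 : B 0 = A := by rw [hB]; simp
  have hBadd : ∀ i j, B (i + j) = T^[i] '' B j := by
    intro i j
    rw [hB]
    simp only
    rw [Function.iterate_add, image_comp]
  have hBc : ∀ i, IsCompact (B i) := fun i => hAc.image (hTi i)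
  have hBM : ∀ i, B i ⊆ M := by
    rintro i _ ⟨x, hx, rfl⟩
    exact mapsTo_iter hmin.2.2.1 i (hAM hx)
  have hcomm : ∀ i x, T^[m] (T^[i] x) = T^[i] (T^[m] x) := by
    intro i x
    rw [← Function.iterate_add_apply, ← Function.iterate_add_apply, add_comm]
  have hBmin : ∀ i, IsMin (T^[m]) (B i) := by
    intro i
    refine ⟨hA.1.image _, (hBc i).isClosed, ?_, ?_⟩
    · rintro _ ⟨x, hx, rfl⟩
      exact ⟨T^[m] x, hA.2.2.1 hx, (hcomm i x).symm⟩
    · intro K hK hKne hKcl hKinv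
      have h1 : A ∩ (T^[i]) ⁻¹' K = A := by
        refine hA.2.2.2 _ inter_subset_left ?_ (hA.2.1.inter (hKcl.preimage (hTi i))) ?_
        · obtain ⟨y, hy⟩ := hKne
          obtain ⟨x, hx, hxy⟩ := hK hy
          exact ⟨x, hx, by show T^[i] x ∈ K; rw [hxy]; exact hy⟩
        · rintro x ⟨hx1, hx2⟩
          refine ⟨hA.2.2.1 hx1, ?_⟩
          show T^[i] (T^[m] x) ∈ K
          rw [← hcomm]
          exact hKinv hx2
      refine subset_antisymm hK ?_
      rintro _ ⟨x, hx, rfl⟩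
      rw [← h1] at hx
      exact hx.2
  have hBm : B m = A := by
    have h1 : B m ⊆ A := by
      rintro _ ⟨x, hx, rfl⟩
      exact hA.2.2.1 hx
    have := (hBmin m).eq_of_inter hA (by
      rw [inter_eq_left.mpr h1]
      exact (hBmin m).1)
    exact this
  have hex : ∃ i, 1 ≤ i ∧ B i = A := ⟨m, hm, hBm⟩
  set c := Nat.find hex with hc
  obtain ⟨hc1, hcA⟩ := Nat.find_spec hex
  rw [← hc] at hc1 hcA
  have hmin' : ∀ i, 1 ≤ i → i < c → B i ≠ A := fun i hi hic h => Nat.find_min hex hic ⟨hi, h⟩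
  have hper : ∀ i, B (i + c) = B i := by
    intro i
    rw [hBadd, hcA]
  have hperq : ∀ i q, B (i + c * q) = B i := by
    intro i q
    induction q with
    | zero => simp
    | succ q ih =>
      rw [mul_add, mul_one, ← add_assoc, hper, ih]
  have hmod : ∀ i, B i = B (i % c) := by
    intro i
    conv_lhs => rw [← Nat.mod_add_div i c]
    exact hperq _ _
  have hcm : c ∣ m := by
    rw [Nat.dvd_iff_mod_eq_zero]
    by_contra hr
    exact hmin' (m % c) (by omega) (Nat.mod_lt _ hc1) (by rw [← hmod, hBm])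
  have hdisj : ∀ i j, i < c → j < c → (B i ∩ B j).Nonempty → i = j := by
    have key : ∀ i j, i < j → j < c → ¬ (B i ∩ B j).Nonempty := by
      intro i j hij hj hne
      have h1 : B i = B j := (hBmin i).eq_of_inter (hBmin j) hne
      have h2 : B (c - i + i) = B (c - i + j) := by rw [hBadd, hBadd, h1]
      have h3 : c - i + i = c := by omega
      have h4 : c - i + j = (j - i) + c := by omega
      rw [h3, h4, hcA, hper] at h2
      exact hmin' (j - i) (by omega) (by omega) h2.symm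
    intro i j hi hj hne
    rcases lt_trichotomy i j with h | h | h
    · exact absurd hne (key i j h hj)
    · exact h
    · exact absurd (by rwa [inter_comm] at hne) (key j i h hi)
  -- the union is everything
  have hunion : M = ⋃ i ∈ Finset.range c, B i := by
    symm
    refine hmin.2.2.2 _ ?_ ?_ ?_ ?_
    · exact iUnion₂_subset fun i _ => hBM i
    · obtain ⟨x, hx⟩ := hA.1
      exact ⟨x, mem_iUnion₂.mpr ⟨0, Finset.mem_range.mpr hc1, by rw [hB0]; exact hx⟩⟩
    · exact (Finset.isCompact_biUnion _ fun i _ => hBc i).isClosed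
    · intro x hx
      obtain ⟨i, hi, hxi⟩ := mem_iUnion₂.mp hx
      have h1 : T x ∈ B (i + 1) := by
        rw [add_comm, hBadd, Function.iterate_one]
        exact ⟨x, hxi, rfl⟩
      rw [hmod] at h1
      exact mem_iUnion₂.mpr ⟨_, Finset.mem_range.mpr (Nat.mod_lt _ hc1), h1⟩
  have hcover : ∀ x ∈ M, ∃ i < c, x ∈ B i := by
    intro x hx
    rw [hunion] at hx
    obtain ⟨i, hi, hxi⟩ := mem_iUnion₂.mp hx
    exact ⟨i, Finset.mem_range.mp hi, hxi⟩
  have : NeZero c := ⟨by omega⟩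
  set φ : X → ZMod c := fun x => if h : ∃ i < c, x ∈ B i then ((Classical.choose h : ℕ) : ZMod c) else 0
    with hφ
  have hφv : ∀ i < c, ∀ x ∈ B i, φ x = i := by
    intro i hi x hx
    have h1 : ∃ i < c, x ∈ B i := ⟨i, hi, hx⟩
    have h2 : φ x = ((Classical.choose h1 : ℕ) : ZMod c) := by
      rw [hφ]; simp only; rw [dif_pos h1]
    obtain ⟨h3, h4⟩ := Classical.choose_spec h1
    rw [h2, hdisj _ i h3 hi ⟨x, h4, hx⟩]
  have hφv' : ∀ i, ∀ x ∈ B i, φ x = i := by
    intro i x hx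
    rw [hmod] at hx
    rw [hφv _ (Nat.mod_lt _ hc1) x hx, ZMod.natCast_mod]
  have hfib : ∀ i : ZMod c, M ∩ φ ⁻¹' {i} = B i.val := by
    intro i
    ext x
    constructor
    · rintro ⟨hx, hxi⟩
      obtain ⟨j, hj, hxj⟩ := hcover x hx
      have h1 : φ x = i := hxi
      rw [hφv j hj x hxj] at h1
      rw [← h1, ZMod.val_natCast, Nat.mod_eq_of_lt hj]
      exact hxj
    · intro hx
      refine ⟨hBM _ hx, ?_⟩
      show φ x = i
      rw [hφv' _ x hx, ZMod.natCast_zmod_val]
  refine ⟨c, φ, hc1, hcm, ?_, ?_, ?_⟩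
  · intro x hx
    obtain ⟨i, hi, hxi⟩ := hcover x hx
    refine ⟨(⋃ j ∈ (Finset.range c).erase i, B j)ᶜ, ?_, ?_, ?_⟩
    · exact (Finset.isCompact_biUnion _ fun j _ => hBc j).isClosed.isOpen_compl
    · intro hx'
      obtain ⟨j, hj, hxj⟩ := mem_iUnion₂.mp hx'
      rw [Finset.mem_erase, Finset.mem_range] at hj
      exact hj.1 (hdisj j i hj.2 hi ⟨x, hxj, hxi⟩)
    · rintro y ⟨hyU, hyM⟩
      obtain ⟨j, hj, hyj⟩ := hcover y hyM
      have : j = i := by
        by_contra hne
        exact hyU (mem_iUnion₂.mpr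
          ⟨j, Finset.mem_erase.mpr ⟨hne, Finset.mem_range.mpr hj⟩, hyj⟩)
      rw [hφv i hi x hxi, hφv j hj y hyj, this]
  · intro x hx
    obtain ⟨i, hi, hxi⟩ := hcover x hx
    have h1 : T x ∈ B (i + 1) := by
      rw [add_comm, hBadd, Function.iterate_one]
      exact ⟨x, hxi, rfl⟩
    rw [hφv' _ _ h1, hφv i hi x hxi]
    push_cast
    rfl
  · intro i
    rw [hfib]
    exact hBmin _

/-- A minimal set that is minimal for the `m`-th power has no cyclic factor of order `m ≥ 2`. -/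
theorem not_topFactor {M : Set X} {m : ℕ} (hm : 2 ≤ m) (h1 : IsMin T M)
    (h2 : IsMin (T^[m]) M) : ¬ TopFactor T M m := by
  rintro ⟨φ, hφ, hstep⟩
  have : Fact (1 < m) := ⟨by omega⟩
  obtain ⟨x, hx⟩ := h1.1
  have hiter : ∀ (r : ℕ), ∀ y ∈ M, φ (T^[r] y) = φ y + r := by
    intro r
    induction r with
    | zero => intro y _; simp
    | succ r ih =>
      intro y hy
      rw [Function.iterate_succ_apply, ih (T y) (h1.2.2.1 hy), hstep y hy]
      push_cast
      ring
  have hK : M ∩ φ ⁻¹' {φ x} = M := by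
    refine h2.2.2.2 _ inter_subset_left ⟨x, hx, rfl⟩ ?_ ?_
    · rw [← isOpen_compl_iff, isOpen_iff_mem_nhds]
      intro y hy
      by_cases hyM : y ∈ M
      · obtain ⟨U, hU, hyU, hc⟩ := hφ y hyM
        filter_upwards [hU.mem_nhds hyU] with z hz hzK
        apply hy
        refine ⟨hyM, ?_⟩
        show φ y = φ x
        rw [← hc z ⟨hz, hzK.1⟩]
        exact hzK.2
      · filter_upwards [h1.2.1.isOpen_compl.mem_nhds hyM] with z hz hzK
        exact hz hzK.1
    · rintro y ⟨hyM, hy⟩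
      refine ⟨h2.2.2.1 hyM, ?_⟩
      show φ (T^[m] y) = φ x
      rw [hiter m y hyM]
      have : φ y = φ x := hy
      rw [this]
      simp
  have h3 : T x ∈ M ∩ φ ⁻¹' {φ x} := by rw [hK]; exact h1.2.2.1 hx
  have h4 : φ (T x) = φ x := h3.2
  rw [hstep x hx] at h4
  have h5 : (1 : ZMod m) = 0 := by
    have := h4
    linear_combination this
  exact one_ne_zero h5

theorem continuous_shift : Continuous shift := continuous_pi fun i => continuous_apply (i + 1)

/-- Sequences with values `1`, `-1` form a compact set. -/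
theorem isCompact_signs : IsCompact {x : ℕ → ℤ | ∀ i, x i = 1 ∨ x i = -1} := by
  have h1 : {x : ℕ → ℤ | ∀ i, x i = 1 ∨ x i = -1} = Set.pi univ fun _ : ℕ => ({1, -1} : Set ℤ) := by
    ext x
    simp [Set.mem_pi]
  rw [h1]
  exact isCompact_univ_pi fun _ => (Set.toFinite _).isCompact

theorem orbitClosure_signs {f : ℕ → ℤ} (hf : ∀ n, 1 ≤ n → f n = 1 ∨ f n = -1) :
    orbitClosure f ⊆ {x : ℕ → ℤ | ∀ i, x i = 1 ∨ x i = -1} := by
  refine closure_minimal ?_ isCompact_signs.isClosed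
  rintro x ⟨n, hn, rfl⟩ i
  exact hf (n + i) (by omega)

theorem ratio_signs {f : ℕ → ℤ} (hf : IsCM f) (n : ℕ) (hn : 1 ≤ n) :
    ratio f n = 1 ∨ ratio f n = -1 := by
  rw [ratio]
  rcases hf.1 n hn with h | h <;> rcases hf.1 (n + 1) (by omega) with h' | h' <;>
    rw [h, h'] <;> norm_num

/-- The topological form of (9). -/
theorem top_prime_factor {f : ℕ → ℤ} (hf : IsCM f) {k l : ℕ} (hl : VDW k l)
    (hno : ¬ HasBlock f k) {M : Set (ℕ → ℤ)} (hM : IsMin shift M)
    (hsub : M ⊆ orbitClosure (ratio f)) :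
    ∃ p, p.Prime ∧ p * (k - 1) < l ∧ ∀ j, TopFactor shift M (p ^ j) := by
  classical
  by_contra hcon
  push Not at hcon
  have hk2 : 2 ≤ k := by
    by_contra hk
    apply hno
    refine ⟨1, le_rfl, fun i hi => ?_⟩
    have : i = 0 := by omega
    rw [this]
  choose! e he using hcon
  obtain ⟨D, hD, hcD⟩ := exists_modulus hk2 (TopFactor shift M) (fun c d h hd => h.dvd hd) e he
  have hMc : IsCompact M := isCompact_signs.of_isClosed_subset hM.2.1
    (hsub.trans (orbitClosure_signs (ratio_signs hf)))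
  obtain ⟨c, φ, hc1, hcm, hloc, hstep, hfib⟩ := top_cyclic continuous_shift hMc hM hD
  have hc := hcD c ⟨φ, hloc, hstep⟩ hcm
  obtain ⟨x, hx⟩ := hM.1
  have hiter : ∀ (r : ℕ), ∀ y ∈ M, φ (shift^[r] y) = φ y + r := by
    intro r
    induction r with
    | zero => intro y _; simp
    | succ r ih =>
      intro y hy
      rw [Function.iterate_succ_apply, ih (shift y) (hM.2.2.1 hy), hstep y hy]
      push_cast
      ring
  choose y hy using fun i => (hfib i).1
  refine hno (block_of_returns hf hl hk2 (hsub hx) hc1 hD hc (φ x) y fun i a hia => ?_)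
  -- the orbit of the point is dense in the fibre
  have hax : shift^[a] x ∈ M ∩ φ ⁻¹' {i} := by
    refine ⟨mapsTo_iter hM.2.2.1 a hx, ?_⟩
    show φ (shift^[a] x) = i
    rw [hiter a x hx, hia]
    ring
  have hcl : closure {z | ∃ t : ℕ, z = (shift^[D])^[t] (shift^[a] x)} = M ∩ φ ⁻¹' {i} := by
    refine (hfib i).2.2.2 _ ?_ ?_ isClosed_closure ?_
    · refine closure_minimal ?_ (hfib i).2.1
      rintro z ⟨t, rfl⟩
      exact mapsTo_iter (hfib i).2.2.1 t hax
    · exact ⟨shift^[a] x, subset_closure ⟨0, rfl⟩⟩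
    · have h1 : MapsTo (shift^[D]) {z | ∃ t : ℕ, z = (shift^[D])^[t] (shift^[a] x)}
          {z | ∃ t : ℕ, z = (shift^[D])^[t] (shift^[a] x)} := by
        rintro z ⟨t, rfl⟩
        exact ⟨t + 1, by rw [Function.iterate_succ_apply']⟩
      exact h1.closure (continuous_shift.iterate D)
  have hyi : y i ∈ closure {z | ∃ t : ℕ, z = (shift^[D])^[t] (shift^[a] x)} := by
    rw [hcl]; exact hy i
  have hopen : IsOpen {z : ℕ → ℤ | ∀ s ∈ Finset.range (c * l), z s = y i s} := by
    have : {z : ℕ → ℤ | ∀ s ∈ Finset.range (c * l), z s = y i s} =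
        ⋂ s ∈ Finset.range (c * l), (fun z : ℕ → ℤ => z s) ⁻¹' {y i s} := by
      ext z; simp
    rw [this]
    exact isOpen_biInter_finset fun s _ => (isOpen_discrete _).preimage (continuous_apply s)
  obtain ⟨z, hz, t, rfl⟩ := mem_closure_iff.mp hyi _ hopen (fun s _ => rfl)
  refine ⟨t, fun u hu => ?_⟩
  have h1 := hz u (Finset.mem_range.mpr hu)
  rw [← Function.iterate_mul, shift_iter, shift_iter] at h1
  rw [← h1]
  congr 1
  ring

/-- Minimal sets of the orbit closure of `f` map onto minimal sets. -/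
theorem IsMin.image {f : ℕ → ℤ} (hf : IsCM f) {M : Set (ℕ → ℤ)} (hM : IsMin shift M)
    (hsub : M ⊆ orbitClosure f) :
    IsMin shift (rmap '' M) ∧ rmap '' M ⊆ orbitClosure (ratio f) ∧
      ∀ m, TopFactor shift (rmap '' M) m → TopFactor shift M m := by
  have hMc : IsCompact M := isCompact_signs.of_isClosed_subset hM.2.1
    (hsub.trans (orbitClosure_signs hf.1))
  have hcomm : ∀ x, rmap (shift x) = shift (rmap x) := fun x => rmap_shift 1 x
  refine ⟨⟨hM.1.image _, (hMc.image continuous_rmap).isClosed, ?_, ?_⟩, ?_, ?_⟩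
  · rintro _ ⟨x, hx, rfl⟩
    exact ⟨shift x, hM.2.2.1 hx, hcomm x⟩
  · intro K hK hKne hKcl hKinv
    have h1 : M ∩ rmap ⁻¹' K = M := by
      refine hM.2.2.2 _ inter_subset_left ?_ (hM.2.1.inter (hKcl.preimage continuous_rmap)) ?_
      · obtain ⟨z, hz⟩ := hKne
        obtain ⟨x, hx, hxz⟩ := hK hz
        exact ⟨x, hx, by show rmap x ∈ K; rw [hxz]; exact hz⟩
      · rintro x ⟨hx1, hx2⟩
        refine ⟨hM.2.2.1 hx1, ?_⟩
        show rmap (shift x) ∈ K
        rw [hcomm]
        exact hKinv hx2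
    refine subset_antisymm hK ?_
    rintro _ ⟨x, hx, rfl⟩
    rw [← h1] at hx
    exact hx.2
  · rintro _ ⟨x, hx, rfl⟩
    exact rmap_mem (hsub hx)
  · rintro m ⟨φ, hφ, hstep⟩
    refine ⟨fun x => φ (rmap x), fun x hx => ?_, fun x hx => ?_⟩
    · obtain ⟨U, hU, hxU, hc⟩ := hφ (rmap x) ⟨x, hx, rfl⟩
      exact ⟨rmap ⁻¹' U, hU.preimage continuous_rmap, hxU,
        fun y hy => hc (rmap y) ⟨hy.1, y, hy.2, rfl⟩⟩
    · show φ (rmap (shift x)) = φ (rmap x) + 1
      rw [hcomm, hstep (rmap x) ⟨x, hx, rfl⟩]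

/-- A fixed point is a minimal set of every power. -/
theorem isMin_singleton {x : X} [T1Space X] (hx : T x = x) (m : ℕ) :
    IsMin (T^[m]) ({x} : Set X) := by
  have h1 : T^[m] x = x := Function.iterate_fixed hx m
  refine ⟨singleton_nonempty x, isClosed_singleton, ?_, ?_⟩
  · intro y hy
    rw [mem_singleton_iff] at hy ⊢
    rw [hy, h1]
  · intro K hK hKne _ _
    exact (subset_singleton_iff_eq.mp hK).resolve_left hKne.ne_empty

end Pool.Agent.helper21.BBE
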