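import Mathlib
import Pool.Agent.helper21.BBE.Span

namespace Pool.Agent.helper21.BBE

open Finset

/-- Orthogonality of additive characters. -/
theorem sum_exp_div {Q : ℕ} (hQ : 1 ≤ Q) (m : ℕ) :
    ∑ c ∈ range Q, Complex.exp (2 * Real.pi * Complex.I * ((c : ℂ) * m / Q)) =
      if Q ∣ m then (Q : ℂ) else 0 := by
  have hQ0 : Q ≠ 0 := by omega
  have hprim : IsPrimitiveRoot (Complex.exp (2 * Real.pi * Complex.I / Q)) Q :=
    Complex.isPrimitiveRoot_exp Q hQ0
  set ζ : ℂ := Complex.exp (2 * Real.pi * Complex.I / Q) with hζ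
  have h1 : ∀ c : ℕ, Complex.exp (2 * Real.pi * Complex.I * ((c : ℂ) * m / Q)) = (ζ ^ m) ^ c := by
    intro c
    rw [← pow_mul, hζ, ← Complex.exp_nat_mul]
    congr 1
    push_cast
    field_simp
  rw [sum_congr rfl fun c _ => h1 c, sum_pow_eq]
  · by_cases h : Q ∣ m
    · rw [if_pos h, if_pos ((hprim.pow_eq_one_iff_dvd m).mpr h)]
    · rw [if_neg h, if_neg fun h' => h ((hprim.pow_eq_one_iff_dvd m).mp h')]
  · rw [← pow_mul, mul_comm, pow_mul, hprim.pow_eq_one, one_pow]

/-- The explicit lower bound, at every level `Q`. -/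
theorem large_correlation_level {f : ℕ → ℤ} (hf : IsCM f) {k l : ℕ} (hl : VDW k l)
    (hno : ¬ HasBlock f k) {Q : ℕ} (hQ : 1 ≤ Q) (T : Finset ℕ) (ω : ℕ → ℝ)
    (hT : ∀ n ∈ T, 1 ≤ n ∧ 0 ≤ ω n) (hω : ∑ n ∈ T, ω n = 1) :
    ∃ (b : ℕ) (H : Finset ℕ), b < Q * ((l - 1) / (k - 1)).factorial ∧
      ¬ ((l - 1) / (k - 1)).factorial ∣ b ∧ H ⊆ range (Q * l) ∧
      Even H.card ∧ 1 / (Q * ((l - 1) / (k - 1)).factorial * 2 ^ l : ℝ) ≤
        ‖∑ n ∈ T, (ω n : ℂ) * tw f ((b : ℚ) / (Q * ((l - 1) / (k - 1)).factorial), H) n‖ := by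
  classical
  set q : ℕ := ((l - 1) / (k - 1)).factorial with hq
  have hq1 : 1 ≤ q := Nat.factorial_pos _
  choose a ha using fun W => excluded hf hl hno W
  obtain ⟨A, hA1, hsym, hA2⟩ := symmetrize (f := f) (l := l) (M := 1 * q) (fun W _ => a W)
    (fun W r n hn hna => ha W n hn (by rwa [one_mul] at hna))
  obtain ⟨C, hCn, hC0, hC1⟩ := identity hf le_rfl hq1 A (fun W r => Nat.modEq_one) hsym hA2
  rw [one_mul] at hC1
  by_contra hcon
  push Not at hcon
  set δ : ℝ := 1 / ((Q : ℝ) * q * 2 ^ l) with hδ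
  have hqpos : (0 : ℝ) < q := by exact_mod_cast hq1
  have hQpos : (0 : ℝ) < Q := by exact_mod_cast hQ
  have hQC : (Q : ℂ) ≠ 0 := by exact_mod_cast (show Q ≠ 0 by omega)
  have hqC : (q : ℂ) ≠ 0 := by exact_mod_cast (show q ≠ 0 by omega)
  have hδpos : 0 < δ := by positivity
  -- the shifted sets
  set emb : ℕ → ℕ → ℕ := fun s h => s + Q * h with hemb
  have hinj : ∀ s, Function.Injective (emb s) := by
    intro s x y hxy
    rw [hemb] at hxy
    simp only at hxy
    have : Q * x = Q * y := by omega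
    exact Nat.eq_of_mul_eq_mul_left hQ this
  set HH : ℕ → Finset ℕ → Finset ℕ := fun s H => H.image (emb s) with hHH
  have hHcard : ∀ s H, (HH s H).card = H.card := fun s H => card_image_of_injective _ (hinj s)
  set E : ℕ → Finset ℕ → ℂ := fun b H =>
    ∑ n ∈ T, (ω n : ℂ) * tw f ((b : ℚ) / (Q * q), H) n with hE
  -- unimodular constants
  set U : ℕ → ℕ → ℂ := fun b s =>
    Complex.exp (2 * Real.pi * Complex.I * ((b : ℂ) * s / (Q * q))) with hU
  have hUn : ∀ b s, ‖U b s‖ = 1 := by
    intro b s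
    have : U b s = Complex.exp (((2 * Real.pi * ((b : ℝ) * s / (Q * q)) : ℝ) : ℂ) * Complex.I) := by
      rw [hU]
      push_cast
      congr 1
      ring
    rw [this, Complex.norm_exp_ofReal_mul_I]
  -- the identity at level Q
  have hid : ∀ n, 1 ≤ n → ∑ s ∈ range Q, ∑ c ∈ range Q,
      ∑ b ∈ (range q).filter (fun b => ¬ q ∣ b), ∑ H ∈ (range l).powerset,
        (1 / (Q : ℂ)) * C b H * U (b + c * q) s *
          tw f (((b + c * q : ℕ) : ℚ) / (Q * q), HH s H) n = 1 := by
    intro n hn
    -- each term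
    have hterm : ∀ s c b H, (1 / (Q : ℂ)) * C b H * U (b + c * q) s *
          tw f (((b + c * q : ℕ) : ℚ) / (Q * q), HH s H) n =
        (1 / (Q : ℂ)) * Complex.exp (2 * Real.pi * Complex.I * ((c : ℂ) * (n + s : ℕ) / Q)) *
          (C b H * (Complex.exp (2 * Real.pi * Complex.I * ((b : ℂ) * (n + s : ℕ) / (Q * q))) *
            ∏ h ∈ H, (f (n + s + Q * h) : ℂ))) := by
      intro s c b H
      rw [tw, hHH]
      simp only
      rw [prod_image fun x _ y _ h => hinj s h]
      have h1 : ∏ h ∈ H, (f (n + emb s h) : ℂ) = ∏ h ∈ H, (f (n + s + Q * h) : ℂ) :=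
        prod_congr rfl fun h _ => by rw [hemb]; simp only; rw [add_assoc]
      rw [h1, hU]
      simp only
      have h2 : Complex.exp (2 * Real.pi * Complex.I * (((b + c * q : ℕ) : ℂ) * s / (Q * q))) *
          Complex.exp (2 * Real.pi * Complex.I *
            (((((b + c * q : ℕ) : ℚ) / (Q * q) : ℚ) : ℂ) * n)) =
          Complex.exp (2 * Real.pi * Complex.I * ((c : ℂ) * (n + s : ℕ) / Q)) *
          Complex.exp (2 * Real.pi * Complex.I * ((b : ℂ) * (n + s : ℕ) / (Q * q))) := by
        rw [← Complex.exp_add, ← Complex.exp_add]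
        congr 1
        push_cast
        field_simp
        ring
      calc (1 / (Q : ℂ)) * C b H *
            Complex.exp (2 * Real.pi * Complex.I * (((b + c * q : ℕ) : ℂ) * s / (Q * q))) *
            (Complex.exp (2 * Real.pi * Complex.I *
              (((((b + c * q : ℕ) : ℚ) / (Q * q) : ℚ) : ℂ) * n)) *
              ∏ h ∈ H, (f (n + s + Q * h) : ℂ))
          = (1 / (Q : ℂ)) * C b H *
            (Complex.exp (2 * Real.pi * Complex.I * (((b + c * q : ℕ) : ℂ) * s / (Q * q))) *
            Complex.exp (2 * Real.pi * Complex.I *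
              (((((b + c * q : ℕ) : ℚ) / (Q * q) : ℚ) : ℂ) * n))) *
              ∏ h ∈ H, (f (n + s + Q * h) : ℂ) := by ring
        _ = _ := by rw [h2]; ring
    have hsum : ∀ s ∈ range Q, ∑ c ∈ range Q,
        ∑ b ∈ (range q).filter (fun b => ¬ q ∣ b), ∑ H ∈ (range l).powerset,
        (1 / (Q : ℂ)) * C b H * U (b + c * q) s *
          tw f (((b + c * q : ℕ) : ℚ) / (Q * q), HH s H) n = if Q ∣ n + s then 1 else 0 := by
      intro s _
      have h1 : ∀ c ∈ range Q, ∑ b ∈ (range q).filter (fun b => ¬ q ∣ b),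
          ∑ H ∈ (range l).powerset, (1 / (Q : ℂ)) * C b H * U (b + c * q) s *
          tw f (((b + c * q : ℕ) : ℚ) / (Q * q), HH s H) n =
          Complex.exp (2 * Real.pi * Complex.I * ((c : ℂ) * (n + s : ℕ) / Q)) *
            ((1 / (Q : ℂ)) * ∑ b ∈ (range q).filter (fun b => ¬ q ∣ b),
              ∑ H ∈ (range l).powerset, C b H *
              (Complex.exp (2 * Real.pi * Complex.I * ((b : ℂ) * (n + s : ℕ) / (Q * q))) *
            ∏ h ∈ H, (f (n + s + Q * h) : ℂ))) := by
        intro c _
        rw [mul_sum, mul_sum]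
        refine sum_congr rfl fun b _ => ?_
        rw [mul_sum, mul_sum]
        refine sum_congr rfl fun H _ => ?_
        rw [hterm]
        ring
      rw [sum_congr rfl h1, ← sum_mul, sum_exp_div hQ]
      split_ifs with hdvd
      · obtain ⟨m, hm⟩ := hdvd
        have hm1 : 1 ≤ m := by
          rcases Nat.eq_zero_or_pos m with h0 | h0
          · rw [h0, mul_zero] at hm; omega
          · exact h0
        have h2 : ∑ b ∈ (range q).filter (fun b => ¬ q ∣ b), ∑ H ∈ (range l).powerset, C b H *
              (Complex.exp (2 * Real.pi * Complex.I * ((b : ℂ) * (n + s : ℕ) / (Q * q))) *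
            ∏ h ∈ H, (f (n + s + Q * h) : ℂ)) = 1 := by
          rw [← hC1 m hm1]
          refine sum_congr rfl fun b _ => sum_congr rfl fun H _ => ?_
          by_cases hev : Even H.card
          · congr 1
            rw [tw]
            congr 1
            · congr 2
              rw [hm]
              push_cast
              field_simp
            · have h3 : ∀ h ∈ H, (f (n + s + Q * h) : ℂ) = (f Q : ℂ) * (f (m + h) : ℂ) := by
                intro h _
                rw [hm, ← mul_add, hf.2 Q (m + h) hQ (by omega)]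
                push_cast
                ring
              rw [prod_congr rfl h3, prod_mul_distrib, prod_const]
              have h4 : (f Q : ℂ) ^ H.card = 1 := by
                obtain ⟨r, hr⟩ := hev
                rw [hr, ← two_mul, pow_mul]
                rcases hf.1 Q hQ with h | h <;> rw [h] <;> norm_num
              rw [h4, one_mul]
          · rw [hC0 b H hev, zero_mul, zero_mul]
        rw [h2, mul_one, mul_one_div, div_self hQC]
      · rw [zero_mul]
    rw [sum_congr rfl hsum]
    -- exactly one s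
    have hex : ∃ s ∈ range Q, Q ∣ n + s := by
      refine ⟨(Q - n % Q) % Q, mem_range.mpr (Nat.mod_lt _ hQ), ?_⟩
      rw [← Nat.modEq_zero_iff_dvd]
      have h1 : n % Q < Q := Nat.mod_lt _ hQ
      have h2 : n + (Q - n % Q) % Q ≡ n + (Q - n % Q) [MOD Q] :=
        Nat.ModEq.add_left _ (Nat.mod_modEq _ _)
      refine h2.trans ?_
      have h4 : n = n / Q * Q + n % Q := by rw [mul_comm]; exact (Nat.div_add_mod n Q).symm
      have h3 : n + (Q - n % Q) = 0 + (n / Q + 1) * Q := by
        have h5 : (n / Q + 1) * Q = n / Q * Q + Q := by ring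
        omega
      rw [h3]
      simp [Nat.ModEq]
    obtain ⟨s, hs, hsd⟩ := hex
    rw [sum_eq_single_of_mem s hs, if_pos hsd]
    intro s' hs' hne
    rw [if_neg]
    intro hd
    apply hne
    rw [mem_range] at hs hs'
    have h1 : s' ≡ s [MOD Q] := by
      have h2 : n + s' ≡ n + s [MOD Q] :=
        ((Nat.modEq_zero_iff_dvd).mpr hd).trans ((Nat.modEq_zero_iff_dvd).mpr hsd).symm
      exact Nat.ModEq.add_left_cancel' n h2
    have h3 : s' % Q = s % Q := h1
    rwa [Nat.mod_eq_of_lt hs', Nat.mod_eq_of_lt hs] at h3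
  -- integration
  have h1 : (1 : ℂ) = ∑ s ∈ range Q, ∑ c ∈ range Q,
      ∑ b ∈ (range q).filter (fun b => ¬ q ∣ b), ∑ H ∈ (range l).powerset,
        (1 / (Q : ℂ)) * C b H * U (b + c * q) s * E (b + c * q) (HH s H) := by
    calc (1 : ℂ) = ∑ n ∈ T, (ω n : ℂ) * 1 := by
          rw [← sum_mul, mul_one, ← Complex.ofReal_sum, hω, Complex.ofReal_one]
      _ = ∑ n ∈ T, (ω n : ℂ) * ∑ s ∈ range Q, ∑ c ∈ range Q,
            ∑ b ∈ (range q).filter (fun b => ¬ q ∣ b), ∑ H ∈ (range l).powerset,
            (1 / (Q : ℂ)) * C b H * U (b + c * q) s *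
              tw f (((b + c * q : ℕ) : ℚ) / (Q * q), HH s H) n :=
          sum_congr rfl fun n hn => by rw [hid n (hT n hn).1]
      _ = ∑ n ∈ T, ∑ s ∈ range Q, ∑ c ∈ range Q,
            ∑ b ∈ (range q).filter (fun b => ¬ q ∣ b), ∑ H ∈ (range l).powerset,
            (ω n : ℂ) * ((1 / (Q : ℂ)) * C b H * U (b + c * q) s *
              tw f (((b + c * q : ℕ) : ℚ) / (Q * q), HH s H) n) := by
          refine sum_congr rfl fun n _ => ?_
          rw [mul_sum]
          refine sum_congr rfl fun s _ => ?_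
          rw [mul_sum]
          refine sum_congr rfl fun c _ => ?_
          rw [mul_sum]
          exact sum_congr rfl fun b _ => mul_sum _ _ _
      _ = ∑ s ∈ range Q, ∑ c ∈ range Q,
            ∑ b ∈ (range q).filter (fun b => ¬ q ∣ b), ∑ H ∈ (range l).powerset,
            ∑ n ∈ T, (ω n : ℂ) * ((1 / (Q : ℂ)) * C b H * U (b + c * q) s *
              tw f (((b + c * q : ℕ) : ℚ) / (Q * q), HH s H) n) := by
          rw [sum_comm]
          refine sum_congr rfl fun s _ => ?_
          rw [sum_comm]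
          refine sum_congr rfl fun c _ => ?_
          rw [sum_comm]
          exact sum_congr rfl fun b _ => sum_comm
      _ = _ := by
          refine sum_congr rfl fun s _ => sum_congr rfl fun c _ => sum_congr rfl fun b _ =>
            sum_congr rfl fun H _ => ?_
          rw [hE]
          simp only
          rw [mul_sum]
          exact sum_congr rfl fun n _ => by ring
  have hterm : ∀ s ∈ range Q, ∀ c ∈ range Q, ∀ b ∈ (range q).filter (fun b => ¬ q ∣ b),
      ∀ H ∈ (range l).powerset,
      ‖(1 / (Q : ℂ)) * C b H * U (b + c * q) s * E (b + c * q) (HH s H)‖ ≤ (1 / Q) * δ := by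
    intro s hs c hc b hb H hH
    rw [mem_filter, mem_range] at hb
    rw [mem_range] at hs hc
    rw [mem_powerset] at hH
    by_cases hev : Even H.card
    · have hb2 : b + c * q < Q * q := by
        calc b + c * q < q + c * q := by omega
          _ = (c + 1) * q := by ring
          _ ≤ Q * q := Nat.mul_le_mul_right _ (by omega)
      have hb3 : ¬ q ∣ b + c * q := by
        intro h
        exact hb.2 ((Nat.dvd_add_left (dvd_mul_left q c)).mp h)
      have hH2 : HH s H ⊆ range (Q * l) := by
        intro x hx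
        rw [hHH] at hx
        simp only [mem_image] at hx
        obtain ⟨h, hh, rfl⟩ := hx
        have h2 := mem_range.mp (hH hh)
        rw [mem_range, hemb]
        simp only
        calc s + Q * h < Q + Q * h := by omega
          _ = Q * (h + 1) := by ring
          _ ≤ Q * l := Nat.mul_le_mul_left _ (by omega)
      have h2 := hcon (b + c * q) (HH s H) hb2 hb3 hH2 (by rw [hHcard]; exact hev)
      have hQn : ‖(1 / (Q : ℂ))‖ = 1 / Q := by
        rw [norm_div, norm_one, Complex.norm_natCast]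
      rw [norm_mul, norm_mul, norm_mul, hUn, mul_one, hQn]
      calc 1 / (Q : ℝ) * ‖C b H‖ * ‖E (b + c * q) (HH s H)‖
          ≤ 1 / (Q : ℝ) * 1 * δ := by
            apply mul_le_mul (mul_le_mul_of_nonneg_left (hCn b H) (by positivity)) h2.le
              (norm_nonneg _) (by positivity)
        _ = (1 / Q) * δ := by ring
    · rw [hC0 b H hev, mul_zero, zero_mul, zero_mul, norm_zero]
      positivity
  have hcard : (((range q).filter (fun b => ¬ q ∣ b)).card : ℝ) ≤ q - 1 := by
    have h2 : (range q).filter (fun b => ¬ q ∣ b) ⊆ (range q).erase 0 := by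
      intro b hb
      rw [mem_filter] at hb
      rw [mem_erase]
      exact ⟨fun h0 => hb.2 (h0 ▸ dvd_zero q), hb.1⟩
    have h3 := card_le_card h2
    rw [card_erase_of_mem (mem_range.mpr hq1), card_range] at h3
    have h4 : (((range q).filter (fun b => ¬ q ∣ b)).card : ℝ) ≤ ((q - 1 : ℕ) : ℝ) := by
      exact_mod_cast h3
    rwa [Nat.cast_sub hq1, Nat.cast_one] at h4
  have h5 : (1 : ℝ) ≤ Q * (Q * ((q - 1) * (2 ^ l * ((1 / Q) * δ)))) := by
    calc (1 : ℝ) = ‖(1 : ℂ)‖ := by simp
      _ = ‖∑ s ∈ range Q, ∑ c ∈ range Q,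
            ∑ b ∈ (range q).filter (fun b => ¬ q ∣ b), ∑ H ∈ (range l).powerset,
            (1 / (Q : ℂ)) * C b H * U (b + c * q) s * E (b + c * q) (HH s H)‖ := by rw [← h1]
      _ ≤ ∑ s ∈ range Q, ∑ c ∈ range Q,
            ∑ b ∈ (range q).filter (fun b => ¬ q ∣ b), ∑ H ∈ (range l).powerset,
            ‖(1 / (Q : ℂ)) * C b H * U (b + c * q) s * E (b + c * q) (HH s H)‖ := by
          refine (norm_sum_le _ _).trans (sum_le_sum fun s _ => ?_)
          refine (norm_sum_le _ _).trans (sum_le_sum fun c _ => ?_)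
          exact (norm_sum_le _ _).trans (sum_le_sum fun b _ => norm_sum_le _ _)
      _ ≤ ∑ _s ∈ range Q, ∑ _c ∈ range Q,
            ∑ _b ∈ (range q).filter (fun b => ¬ q ∣ b), ∑ _H ∈ (range l).powerset,
            (1 / Q) * δ :=
          sum_le_sum fun s hs => sum_le_sum fun c hc => sum_le_sum fun b hb =>
            sum_le_sum fun H hH => hterm s hs c hc b hb H hH
      _ = Q * (Q * ((((range q).filter (fun b => ¬ q ∣ b)).card : ℝ) *
            (2 ^ l * ((1 / Q) * δ)))) := by
          simp only [sum_const, card_powerset, card_range, nsmul_eq_mul]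
          push_cast
          ring
      _ ≤ Q * (Q * ((q - 1) * (2 ^ l * ((1 / Q) * δ)))) := by
          have h2 : (0 : ℝ) ≤ 2 ^ l * ((1 / Q) * δ) := by positivity
          have h3 := mul_le_mul_of_nonneg_right hcard h2
          exact mul_le_mul_of_nonneg_left (mul_le_mul_of_nonneg_left h3 hQpos.le) hQpos.le
  have h6 : Q * (Q * (((q : ℝ) - 1) * (2 ^ l * ((1 / Q) * δ)))) = (q - 1) / q := by
    rw [hδ]
    field_simp
  rw [h6, le_div_iff₀ hqpos] at h5
  linarith

end Pool.Agent.helper21.BBE
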